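import Pool.Agent.H36.LF.Ev

/-!
# LEMMA F for affine sheets with unbounded slopes

The point `(y, n)` on an affine sheet `n = g . y + m`, no bound of the slopes `g` and of the height
`m`. If the base `y` is full given the sheet, the slopes are at most `2 ^ (s X)` off a set of
probability `ε / s`, and LEMMA F applies.
-/

set_option autoImplicit false

namespace Pool.LF

open Finset Real MvPolynomial
open Pool.Agent.H49.Ent Pool.Agent.H32.Dense Pool.GNZ

/-- An affine polynomial. -/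
noncomputable def afP {d : ℕ} (g : Fin d → ℝ) (m : ℝ) : MvPolynomial (Fin d) ℝ :=
  (∑ i, C (g i) * MvPolynomial.X i) + C m

theorem afP_eval {d : ℕ} (g : Fin d → ℝ) (m : ℝ) (y : Fin d → ℝ) :
    eval y (afP g m) = ∑ i, g i * y i + m := by
  unfold afP
  rw [map_add, map_sum, eval_C]
  congr 1
  refine Finset.sum_congr rfl fun i _ => ?_
  rw [map_mul, eval_C, eval_X]

theorem afP_deg {d : ℕ} (g : Fin d → ℝ) (m : ℝ) : (afP g m).totalDegree ≤ 1 := by
  unfold afP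
  refine (totalDegree_add _ _).trans (max_le ?_ ?_)
  · refine totalDegree_finsetSum_le fun i _ => ?_
    refine (totalDegree_mul _ _).trans ?_
    rw [totalDegree_C, totalDegree_X]
  · rw [totalDegree_C]
    exact Nat.zero_le _

theorem afP_pd {d : ℕ} (g : Fin d → ℝ) (m : ℝ) (v : Fin d) (y : Fin d → ℝ) :
    eval y (pderiv v (afP g m)) = g v := by
  classical
  unfold afP
  rw [map_add, pderiv_C, add_zero, map_sum, map_sum, Finset.sum_eq_single v]
  · rw [pderiv_C_mul, pderiv_X_self]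
    simp
  · intro i _ hi
    rw [pderiv_C_mul, pderiv_X_of_ne hi]
    simp
  · intro h
    exact absurd (Finset.mem_univ _) h

theorem afP_coeff {d : ℕ} (g : Fin d → ℝ) (m : ℝ) {B : ℝ} (hg : ∀ i, |g i| ≤ B) (hm : |m| ≤ B)
    (k : Fin d →₀ ℕ) : |coeff k (afP g m)| ≤ (d + 1) * B := by
  classical
  have hB : 0 ≤ B := (abs_nonneg _).trans hm
  unfold afP
  rw [coeff_add, coeff_sum]
  refine (abs_add_le _ _).trans ?_
  have h1 : |∑ i, coeff k (C (g i) * MvPolynomial.X (R := ℝ) i)| ≤ d * B := by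
    refine (Finset.abs_sum_le_sum_abs _ _).trans ?_
    have h2 : ∀ i ∈ (Finset.univ : Finset (Fin d)),
        |coeff k (C (g i) * MvPolynomial.X (R := ℝ) i)| ≤ B := by
      intro i _
      rw [coeff_C_mul, abs_mul, coeff_X]
      split_ifs
      · rw [abs_one, mul_one]
        exact hg i
      · rw [abs_zero, mul_zero]
        exact hB
    refine (Finset.sum_le_sum h2).trans (le_of_eq ?_)
    rw [Finset.sum_const, Finset.card_univ, Fintype.card_fin, nsmul_eq_mul]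
  have h3 : |coeff k (C m : MvPolynomial (Fin d) ℝ)| ≤ B := by
    rw [coeff_C]
    split_ifs
    · exact hm
    · rw [abs_zero]
      exact hB
  linarith

/-- The box of cells. -/
noncomputable def bxF (d R X : ℕ) : Finset (Fin d → ℤ) :=
  Fintype.piFinset (fun _ : Fin d => Finset.Icc (-(R * 2 ^ X : ℤ)) (R * 2 ^ X : ℤ))

theorem mem_bxF {d R X : ℕ} {u : Fin d → ℤ} : u ∈ bxF d R X ↔ ∀ i, |u i| ≤ R * 2 ^ X := by
  unfold bxF
  rw [Fintype.mem_piFinset]
  refine forall_congr' fun i => ?_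
  rw [Finset.mem_Icc, abs_le]

theorem icc_card {R X : ℕ} (hR : 1 ≤ R) :
    ((Finset.Icc (-(R * 2 ^ X : ℤ)) (R * 2 ^ X : ℤ)).card : ℝ) ≤ 3 * R * 2 ^ X := by
  have hRr : (1 : ℝ) ≤ R := by exact_mod_cast hR
  have hM1 : (1 : ℝ) ≤ 2 ^ X := one_le_pow₀ (by norm_num)
  rw [Int.card_Icc]
  have h5 : ((R * 2 ^ X : ℤ) + 1 - -(R * 2 ^ X : ℤ)) = ((2 * R * 2 ^ X + 1 : ℕ) : ℤ) := by
    push_cast
    ring
  rw [h5, Int.toNat_natCast]
  push_cast
  nlinarith

theorem bxF_card {d R X : ℕ} (hR : 1 ≤ R) : ((bxF d R X).card : ℝ) ≤ (3 * R * 2 ^ X) ^ d := by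
  unfold bxF
  rw [Fintype.card_piFinset, Finset.prod_const, Finset.card_univ, Fintype.card_fin]
  push_cast
  exact pow_le_pow_left₀ (Nat.cast_nonneg _) (icc_card hR) d

/-- Counting the cells in a steep slab. -/
theorem cnt_slab {d R X : ℕ} (hR : 1 ≤ R) {e S : ℝ} (he : 0 ≤ e) (hS : 1 ≤ S) (hS2 : S ≤ 2 ^ X)
    (g : Fin d → ℝ) (m : ℝ) (hg : S < ‖g‖) (F : Finset (Fin d → ℤ))
    (hF : ∀ u ∈ F, (∀ i, |u i| ≤ R * 2 ^ X) ∧
      |∑ i, g i * gp X u i + m| ≤ R + e + d * ‖g‖ * ((2 : ℝ) ^ X)⁻¹) :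
    (F.card : ℝ) ≤ (2 * (2 * (R + e) + 2 * d + 1)) * (3 * R * 2 ^ X) ^ d / S := by
  have hRr : (1 : ℝ) ≤ R := by exact_mod_cast hR
  have hM1 : (1 : ℝ) ≤ 2 ^ X := one_le_pow₀ (by norm_num)
  have hM : (0 : ℝ) < 2 ^ X := by positivity
  have hg0 : 0 < ‖g‖ := by linarith
  obtain ⟨v, hv⟩ : ∃ v, ‖g‖ ≤ |g v| := by
    by_contra h
    push Not at h
    have h2 : ‖g‖ < ‖g‖ := (pi_norm_lt_iff hg0).2 fun i => by
      rw [Real.norm_eq_abs]
      exact h i
    exact lt_irrefl _ h2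
  have hv2 : |g v| ≤ ‖g‖ := by
    rw [← Real.norm_eq_abs]
    exact norm_le_pi_norm g v
  have hgv : 0 < |g v| := hg0.trans_le hv
  have h1 := cnt_axis (K := 1) (R := R) (X := X) (afP g m) (afP_deg g m)
    (a := R + e + d * ‖g‖ * ((2 : ℝ) ^ X)⁻¹) (b := |g v|) (by positivity) hgv v F (by
      intro u hu
      refine ⟨(hF u hu).1, ?_, ?_⟩
      · rw [afP_eval]
        exact (hF u hu).2
      · rw [afP_pd])
  have hd : 1 ≤ d := by
    have := v.isLt
    omega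
  obtain ⟨k, rfl⟩ : ∃ k, d = k + 1 := ⟨d - 1, by omega⟩
  rw [Nat.add_sub_cancel] at h1
  refine h1.trans ?_
  have h2 : 2 * ((R : ℝ) + e + ((k + 1 : ℕ) : ℝ) * ‖g‖ * ((2 : ℝ) ^ X)⁻¹) * 2 ^ X / |g v| ≤
      (2 * (R + e) + 2 * ((k + 1 : ℕ) : ℝ)) * 2 ^ X / S := by
    rw [div_le_div_iff₀ hgv (by linarith)]
    have e1 : 2 * ((R : ℝ) + e + ((k + 1 : ℕ) : ℝ) * ‖g‖ * ((2 : ℝ) ^ X)⁻¹) * 2 ^ X =
        2 * (R + e) * 2 ^ X + 2 * ((k + 1 : ℕ) : ℝ) * ‖g‖ := by
      field_simp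
    rw [e1]
    have e2 : 2 * ((R : ℝ) + e) * 2 ^ X * S ≤ 2 * (R + e) * 2 ^ X * |g v| :=
      mul_le_mul_of_nonneg_left (hg.le.trans hv) (by positivity)
    have e3 : 2 * ((k + 1 : ℕ) : ℝ) * ‖g‖ * S ≤ 2 * ((k + 1 : ℕ) : ℝ) * |g v| * 2 ^ X :=
      mul_le_mul (mul_le_mul_of_nonneg_left hv (by positivity)) hS2 (by linarith) (by positivity)
    nlinarith
  have h3 : (1 : ℝ) ≤ 2 ^ X / S := by
    rw [le_div_iff₀ (by linarith), one_mul]
    exact hS2
  have h4 : (2 * (R : ℝ) * 2 ^ X + 1) ≤ 3 * R * 2 ^ X := by nlinarith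
  have h5 : (2 * (R : ℝ) * 2 ^ X + 1) ^ k ≤ (3 * R * 2 ^ X) ^ k :=
    pow_le_pow_left₀ (by positivity) h4 k
  have h6 : 2 * ((1 : ℕ) : ℝ) * (2 * ((R : ℝ) + e + ((k + 1 : ℕ) : ℝ) * ‖g‖ *
      ((2 : ℝ) ^ X)⁻¹) * 2 ^ X / |g v| + 1) ≤
      (2 * (2 * (R + e) + 2 * ((k + 1 : ℕ) : ℝ) + 1)) * (2 ^ X / S) := by
    have e1 : (2 * ((R : ℝ) + e) + 2 * ((k + 1 : ℕ) : ℝ)) * 2 ^ X / S =
      (2 * (R + e) + 2 * ((k + 1 : ℕ) : ℝ)) * (2 ^ X / S) := by ring
    rw [e1] at h2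
    rw [Nat.cast_one, mul_one]
    linarith
  have h7 : (1 : ℝ) ≤ 3 * R := by linarith
  calc _ ≤ ((2 * (2 * ((R : ℝ) + e) + 2 * ((k + 1 : ℕ) : ℝ) + 1)) * (2 ^ X / S)) *
        (3 * R * 2 ^ X) ^ k := mul_le_mul h6 h5 (by positivity) (by positivity)
    _ ≤ ((2 * (2 * ((R : ℝ) + e) + 2 * ((k + 1 : ℕ) : ℝ) + 1)) * (2 ^ X / S)) *
        (3 * R * 2 ^ X) ^ k * (3 * R) := le_mul_of_one_le_right (by positivity) h7
    _ = _ := by ring

/-- The number of the cells. -/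
noncomputable def nF (d R : ℕ) (e : ℝ) : ℝ := 2 * (2 * (R + e) + 2 * d + 1) * (3 * R) ^ d

theorem nF_ge {d R : ℕ} (hR : 1 ≤ R) {e : ℝ} (he : 0 ≤ e) : 1 ≤ nF d R e := by
  unfold nF
  have h1 : (1 : ℝ) ≤ R := by exact_mod_cast hR
  have h2 : (1 : ℝ) ≤ (3 * R) ^ d := one_le_pow₀ (by linarith)
  have h3 : (1 : ℝ) ≤ 2 * (2 * (R + e) + 2 * d + 1) := by
    have : (0 : ℝ) ≤ d := Nat.cast_nonneg _
    linarith
  nlinarith

section

variable {Ω 𝒞 Λ : Type} [Fintype Ω] {p : Ω → ℝ} (hp : ∀ ω, 0 ≤ p ω) (h1 : ∑ ω, p ω = 1)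
    {d R X : ℕ} (hR : 1 ≤ R) {e : ℝ} (he : 0 ≤ e) (C : Ω → 𝒞) (L : Ω → Λ)
    (g : 𝒞 → Λ → Fin d → ℝ) (m : 𝒞 → Λ → ℝ)
    (y : Ω → Fin d → ℝ) (n : Ω → ℝ) (hy : ∀ ω, 0 < p ω → ∀ i, |y ω i| ≤ R)
    (hn1 : ∀ ω, 0 < p ω → |n ω| ≤ R)
    (hn : ∀ ω, 0 < p ω → |n ω - (∑ i, g (C ω) (L ω) i * y ω i + m (C ω) (L ω))| ≤
      e * ((2 : ℝ) ^ X)⁻¹)

include hp h1 hR he hy hn1 hn

/-- **Steep sheets are rare** if the base is full given the sheet. -/
theorem steep {S : ℝ} (hS : 1 ≤ S) (hS2 : S ≤ 2 ^ X) :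
    CH p (fun ω => dv X (y ω)) (fun ω => (L ω, C ω)) +
      PrE p (fun ω => S < ‖g (C ω) (L ω)‖) * Real.log S ≤
        d * X * Real.log 2 + Real.log (nF d R e) := by
  classical
  have hRr : (1 : ℝ) ≤ R := by exact_mod_cast hR
  have hM : (0 : ℝ) < 2 ^ X := by positivity
  have hM1 : (1 : ℝ) ≤ 2 ^ X := one_le_pow₀ (by norm_num)
  obtain ⟨F, hF⟩ : ∃ F : Λ × 𝒞 → Finset (Fin d → ℤ), ∀ w, F w = (bxF d R X).filter
      (fun u => |∑ i, g w.2 w.1 i * gp X u i + m w.2 w.1| ≤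
        R + e + d * ‖g w.2 w.1‖ * ((2 : ℝ) ^ X)⁻¹) := ⟨_, fun _ => rfl⟩
  have hmem : ∀ ω, 0 < p ω → dv X (y ω) ∈ F (L ω, C ω) := by
    intro ω hω
    rw [hF, Finset.mem_filter, mem_bxF]
    refine ⟨dv_box (hy ω hω), ?_⟩
    have a1 := hn ω hω
    have a2 := hn1 ω hω
    have a3 : |∑ i, g (C ω) (L ω) i * gp X (dv X (y ω)) i - ∑ i, g (C ω) (L ω) i * y ω i| ≤
        d * ‖g (C ω) (L ω)‖ * ((2 : ℝ) ^ X)⁻¹ := by
      rw [← Finset.sum_sub_distrib]
      refine (Finset.abs_sum_le_sum_abs _ _).trans ?_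
      have h2 : ∀ i ∈ (Finset.univ : Finset (Fin d)),
          |g (C ω) (L ω) i * gp X (dv X (y ω)) i - g (C ω) (L ω) i * y ω i| ≤
            ‖g (C ω) (L ω)‖ * ((2 : ℝ) ^ X)⁻¹ := by
        intro i _
        rw [← mul_sub, abs_mul]
        refine mul_le_mul ?_ (gp_near _ _) (abs_nonneg _) (norm_nonneg _)
        rw [← Real.norm_eq_abs]
        exact norm_le_pi_norm _ i
      refine (Finset.sum_le_sum h2).trans (le_of_eq ?_)
      rw [Finset.sum_const, Finset.card_univ, Fintype.card_fin, nsmul_eq_mul]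
      ring
    have a4 : e * ((2 : ℝ) ^ X)⁻¹ ≤ e :=
      mul_le_of_le_one_right he (inv_le_one_of_one_le₀ hM1)
    show |∑ i, g (C ω) (L ω) i * gp X (dv X (y ω)) i + m (C ω) (L ω)| ≤
      R + e + d * ‖g (C ω) (L ω)‖ * ((2 : ℝ) ^ X)⁻¹
    rw [abs_le] at a1 a2 a3 ⊢
    constructor <;> linarith [a1.1, a1.2, a2.1, a2.2, a3.1, a3.2]
  have hnF := nF_ge (d := d) hR he
  have hcard : ∀ ω, 0 < p ω → Real.log ((F (L ω, C ω)).card) ≤
      (d * X * Real.log 2 + Real.log (nF d R e)) -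
        (if S < ‖g (C ω) (L ω)‖ then Real.log S else 0) := by
    intro ω hω
    have hpos : (0 : ℝ) < (F (L ω, C ω)).card := by
      exact_mod_cast Finset.card_pos.2 ⟨_, hmem ω hω⟩
    have e1 : (d * X * Real.log 2 + Real.log (nF d R e)) = Real.log (nF d R e * (2 ^ X) ^ d) := by
      rw [Real.log_mul (by linarith) (by positivity), Real.log_pow, Real.log_pow]
      ring
    rw [e1]
    split_ifs with h2
    · rw [← Real.log_div (by positivity) (by linarith)]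
      refine Real.log_le_log hpos ?_
      refine (cnt_slab (X := X) hR he hS hS2 (g (C ω) (L ω)) (m (C ω) (L ω)) h2 _ ?_).trans
        (le_of_eq ?_)
      · intro u hu
        rw [hF, Finset.mem_filter, mem_bxF] at hu
        exact hu
      · unfold nF
        rw [mul_pow]
        ring
    · rw [sub_zero]
      refine Real.log_le_log hpos ?_
      have h3 : ((F (L ω, C ω)).card : ℝ) ≤ ((bxF d R X).card : ℝ) := by
        rw [hF]
        exact_mod_cast Finset.card_filter_le _ _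
      refine h3.trans ((bxF_card hR).trans ?_)
      unfold nF
      rw [mul_pow]
      have h4 : (1 : ℝ) ≤ 2 * (2 * (R + e) + 2 * d + 1) := by
        have : (0 : ℝ) ≤ d := Nat.cast_nonneg _
        linarith
      calc (3 * (R : ℝ)) ^ d * (2 ^ X) ^ d = 1 * ((3 * (R : ℝ)) ^ d * (2 ^ X) ^ d) := by ring
        _ ≤ (2 * (2 * (R + e) + 2 * d + 1)) * ((3 * (R : ℝ)) ^ d * (2 ^ X) ^ d) :=
          mul_le_mul_of_nonneg_right h4 (by positivity)
        _ = _ := by ring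
  have h2 := CH_le_card hp h1 (fun ω => dv X (y ω)) (fun ω => (L ω, C ω)) F hmem
  have h3 : Ex p (fun ω => Real.log ((F (L ω, C ω)).card)) ≤
      (d * X * Real.log 2 + Real.log (nF d R e)) -
        PrE p (fun ω => S < ‖g (C ω) (L ω)‖) * Real.log S := by
    refine (Ex_mono hp hcard).trans (le_of_eq ?_)
    unfold Ex
    rw [PrE_eq, Finset.sum_mul]
    have e2 : ∀ ω ∈ (Finset.univ : Finset Ω), p ω * ((d * X * Real.log 2 + Real.log (nF d R e)) -
        (if S < ‖g (C ω) (L ω)‖ then Real.log S else 0)) =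
        p ω * (d * X * Real.log 2 + Real.log (nF d R e)) -
          (if S < ‖g (C ω) (L ω)‖ then p ω else 0) * Real.log S := by
      intro ω _
      split_ifs <;> ring
    rw [Finset.sum_congr rfl e2, Finset.sum_sub_distrib, ← Finset.sum_mul, h1, one_mul]
  linarith

/-- **LEMMA F for affine sheets**, explicit constants. -/
theorem aff_pop0 (hX : 1 ≤ X) {ε c s a : ℝ} (ha : 0 < a) (hs : 0 < s) (hs1 : s ≤ 1)
    (hfull : (d - ε) * X * Real.log 2 ≤ CH p (fun ω => dv X (y ω)) (fun ω => (L ω, C ω)))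
    (hnon : CH p (pt X y n) C ≤ (d + 1 - c) * X * Real.log 2) :
    ∃ G : ((Fin d → ℤ) × ℤ) × 𝒞 → Fin d → ℝ, ∃ κ : ℝ, 0 ≤ κ ∧
      κ * (s * X * Real.log 2) ≤ ε * X * Real.log 2 + Real.log (nF d R e) ∧
      c - 2 * (ε + κ * ((d + 1) * (1 + Real.log (3 * R) / Real.log 2))) - a - κ -
        (Real.log (X + 1) + Real.log (cF d 1 R (kF d 1 R
          ((d + 1) * (R + e + 1 + d * R * (2 : ℝ) ^ (s * X))) (e + 1)))) / (X * Real.log 2) ≤
      PrE p (fun ω => ∀ v, |g (C ω) (L ω) v - G (pt X y n ω, C ω) v| ≤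
        2 * (2 : ℝ) ^ (-(a * X)) +
          d * ((1 + 1) ^ (d + 1) * (((1 + 1) * ((d + 1) * (R + e + 1 + d * R *
            (2 : ℝ) ^ (s * X)))) * (R + 1) ^ 1)) * ((2 : ℝ) ^ X)⁻¹) := by
  classical
  have hRr : (1 : ℝ) ≤ R := by exact_mod_cast hR
  have hXr : (1 : ℝ) ≤ X := by exact_mod_cast hX
  have hM : (0 : ℝ) < 2 ^ X := by positivity
  have hM1 : (1 : ℝ) ≤ 2 ^ X := one_le_pow₀ (by norm_num)
  have hl2 : 0 < Real.log 2 := Real.log_pos (by norm_num)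
  obtain ⟨S, hSdef⟩ : ∃ S : ℝ, S = (2 : ℝ) ^ (s * X) := ⟨_, rfl⟩
  have hS : 1 ≤ S := by
    rw [hSdef]
    exact Real.one_le_rpow (by norm_num) (by positivity)
  have hS2 : S ≤ 2 ^ X := by
    rw [hSdef, ← Real.rpow_natCast]
    refine Real.rpow_le_rpow_of_exponent_le (by norm_num) ?_
    nlinarith
  have hlS : Real.log S = s * X * Real.log 2 := by
    rw [hSdef, Real.log_rpow (by norm_num)]
  rw [← hSdef]
  have hst := steep hp h1 hR he C L g m y n hy hn1 hn hS hS2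
  obtain ⟨κ, hκ⟩ : ∃ κ : ℝ, κ = PrE p (fun ω => S < ‖g (C ω) (L ω)‖) := ⟨_, rfl⟩
  rw [← hκ, hlS] at hst
  have hκ0 : 0 ≤ κ := by
    rw [hκ, PrE_eq]
    refine Finset.sum_nonneg fun ω _ => ?_
    split_ifs
    · exact hp ω
    · exact le_rfl
  -- the new label
  obtain ⟨Z, hZ⟩ : ∃ Z : Ω → Option ((Fin d → ℤ) × ℤ), ∀ ω, Z ω =
      if S < ‖g (C ω) (L ω)‖ then some (pt X y n ω) else none := ⟨_, fun _ => rfl⟩
  obtain ⟨P, hP⟩ : ∃ P : 𝒞 → Λ × Option ((Fin d → ℤ) × ℤ) → MvPolynomial (Fin d) ℝ,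
      ∀ c l, P c l = match l.2 with
        | none => afP (g c l.1) (m c l.1)
        | some z => MvPolynomial.C ((z.2 : ℝ) / 2 ^ X) := ⟨_, fun _ _ => rfl⟩
  have hdeg : ∀ c l, (P c l).totalDegree ≤ 1 := by
    intro c l
    rw [hP]
    rcases l.2 with _ | z
    · exact afP_deg _ _
    · rw [totalDegree_C]
      exact Nat.zero_le _
  have hP1 : ∀ ω, ¬ S < ‖g (C ω) (L ω)‖ → P (C ω) (L ω, Z ω) =
      afP (g (C ω) (L ω)) (m (C ω) (L ω)) := by
    intro ω h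
    rw [hP, hZ, if_neg h]
  have hP2 : ∀ ω, S < ‖g (C ω) (L ω)‖ → P (C ω) (L ω, Z ω) =
      MvPolynomial.C ((⌊(2 : ℝ) ^ X * n ω⌋ : ℝ) / 2 ^ X) := by
    intro ω h
    rw [hP, hZ, if_pos h]
    rfl
  have hfl : ∀ ω, |(⌊(2 : ℝ) ^ X * n ω⌋ : ℝ) / 2 ^ X - n ω| ≤ ((2 : ℝ) ^ X)⁻¹ := by
    intro ω
    have a1 := Int.floor_le ((2 : ℝ) ^ X * n ω)
    have a2 := Int.lt_floor_add_one ((2 : ℝ) ^ X * n ω)
    have e1 : (⌊(2 : ℝ) ^ X * n ω⌋ : ℝ) / 2 ^ X - n ω =
        ((⌊(2 : ℝ) ^ X * n ω⌋ : ℝ) - 2 ^ X * n ω) * ((2 : ℝ) ^ X)⁻¹ := by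
      field_simp
    rw [e1, abs_mul, abs_of_pos (inv_pos.2 hM)]
    refine mul_le_of_le_one_left (inv_pos.2 hM).le ?_
    rw [abs_le]
    constructor <;> linarith
  have hinv : ((2 : ℝ) ^ X)⁻¹ ≤ 1 := inv_le_one_of_one_le₀ hM1
  have hB : ∀ ω, 0 < p ω → ∀ k, |coeff k (P (C ω) (L ω, Z ω))| ≤
      (d + 1) * (R + e + 1 + d * R * S) := by
    intro ω hω k
    have hd0 : (0 : ℝ) ≤ d := Nat.cast_nonneg _
    by_cases h : S < ‖g (C ω) (L ω)‖
    · rw [hP2 ω h, coeff_C]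
      have a3 : (0 : ℝ) ≤ d * R * S := by positivity
      have a4 : (R : ℝ) + 1 ≤ (d + 1) * (R + e + 1 + d * R * S) := by nlinarith
      split_ifs
      · have a1 := hfl ω
        have a2 := hn1 ω hω
        refine le_trans ?_ a4
        rw [abs_le] at a1 a2 ⊢
        constructor <;> linarith [a1.1, a1.2, a2.1, a2.2]
      · rw [abs_zero]
        positivity
    · rw [hP1 ω h]
      have hgi : ∀ i, |g (C ω) (L ω) i| ≤ S := by
        intro i
        rw [← Real.norm_eq_abs]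
        exact (norm_le_pi_norm _ i).trans (not_lt.1 h)
      have hsum : |∑ i, g (C ω) (L ω) i * y ω i| ≤ d * R * S := by
        refine (Finset.abs_sum_le_sum_abs _ _).trans ?_
        have h2 : ∀ i ∈ (Finset.univ : Finset (Fin d)), |g (C ω) (L ω) i * y ω i| ≤ S * R := by
          intro i _
          rw [abs_mul]
          exact mul_le_mul (hgi i) (hy ω hω i) (abs_nonneg _) (by linarith)
        refine (Finset.sum_le_sum h2).trans (le_of_eq ?_)
        rw [Finset.sum_const, Finset.card_univ, Fintype.card_fin, nsmul_eq_mul]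
        ring
      refine afP_coeff _ _ ?_ ?_ k
      · intro i
        have hd1 : (1 : ℝ) ≤ d := by
          have : 1 ≤ d := by
            have := i.isLt
            omega
          exact_mod_cast this
        have a5 : S ≤ d * R * S := by
          have : (1 : ℝ) ≤ d * R := by nlinarith
          nlinarith
        have := hgi i
        linarith
      · have a1 := hn ω hω
        have a2 := hn1 ω hω
        have a4 : e * ((2 : ℝ) ^ X)⁻¹ ≤ e := mul_le_of_le_one_right he hinv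
        rw [abs_le] at a1 a2 hsum ⊢
        constructor <;> linarith [a1.1, a1.2, a2.1, a2.2, hsum.1, hsum.2]
  have hn' : ∀ ω, 0 < p ω → |n ω - eval (y ω) (P (C ω) (L ω, Z ω))| ≤
      (e + 1) * ((2 : ℝ) ^ X)⁻¹ := by
    intro ω hω
    by_cases h : S < ‖g (C ω) (L ω)‖
    · rw [hP2 ω h, eval_C, abs_sub_comm]
      refine (hfl ω).trans ?_
      have : 0 ≤ e * ((2 : ℝ) ^ X)⁻¹ := by positivity
      linarith
    · rw [hP1 ω h, afP_eval]
      refine (hn ω hω).trans ?_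
      have := inv_pos.2 hM
      linarith
  -- the entropy of the new label
  have hZent : CH p Z (fun ω => (L ω, C ω)) ≤
      κ * ((d + 1) * (X * Real.log 2 + Real.log (3 * R))) := by
    obtain ⟨F, hF⟩ : ∃ F : Λ × 𝒞 → Finset (Option ((Fin d → ℤ) × ℤ)), ∀ w, F w =
        if S < ‖g w.2 w.1‖ then ((bxF d R X) ×ˢ (Finset.Icc (-(R * 2 ^ X : ℤ))
          (R * 2 ^ X : ℤ))).image some else {none} := ⟨_, fun _ => rfl⟩
    have hmem : ∀ ω, 0 < p ω → Z ω ∈ F (L ω, C ω) := by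
      intro ω hω
      rw [hZ, hF]
      by_cases h : S < ‖g (C ω) (L ω)‖
      · rw [if_pos h, if_pos h]
        refine Finset.mem_image_of_mem _ (Finset.mem_product.2 ⟨?_, ?_⟩)
        · rw [mem_bxF]
          exact dv_box (hy ω hω)
        · have h2 := dv_box (X := X) (R := R) (y := fun _ : Fin 1 => n ω)
            (fun _ => hn1 ω hω) 0
          rw [Finset.mem_Icc]
          exact abs_le.1 h2
      · rw [if_neg h, if_neg h]
        exact Finset.mem_singleton_self _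
    refine (CH_le_card hp h1 Z (fun ω => (L ω, C ω)) F hmem).trans ?_
    have hcard : ∀ ω, 0 < p ω → Real.log ((F (L ω, C ω)).card) ≤
        (if S < ‖g (C ω) (L ω)‖ then (d + 1) * (X * Real.log 2 + Real.log (3 * R)) else 0) := by
      intro ω hω
      have hpos : (0 : ℝ) < (F (L ω, C ω)).card := by
        exact_mod_cast Finset.card_pos.2 ⟨_, hmem ω hω⟩
      by_cases h : S < ‖g (C ω) (L ω)‖
      · rw [if_pos h]
        have e1 : ((d : ℝ) + 1) * (X * Real.log 2 + Real.log (3 * R)) =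
            Real.log ((3 * R * 2 ^ X) ^ (d + 1)) := by
          have e0 : Real.log ((3 * R) * 2 ^ X) = Real.log (3 * R) + X * Real.log 2 := by
            rw [Real.log_mul (by positivity) (by positivity), Real.log_pow]
          rw [Real.log_pow, e0]
          push_cast
          ring
        rw [e1]
        refine Real.log_le_log hpos ?_
        rw [hF, if_pos h, Finset.card_image_of_injective _ (Option.some_injective _),
          Finset.card_product, pow_succ]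
        push_cast
        exact mul_le_mul (bxF_card hR) (icc_card hR) (Nat.cast_nonneg _) (by positivity)
      · rw [if_neg h, hF, if_neg h, Finset.card_singleton]
        simp
    refine (Ex_mono hp hcard).trans (le_of_eq ?_)
    unfold Ex
    rw [hκ, PrE_eq, Finset.sum_mul]
    refine Finset.sum_congr rfl fun ω _ => ?_
    by_cases h : S < ‖g (C ω) (L ω)‖
    · simp only [if_pos h]
    · simp only [if_neg h]
      ring
  have hfull' : (d - (ε + κ * ((d + 1) * (1 + Real.log (3 * R) / Real.log 2)))) * X *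
      Real.log 2 ≤ CH p (pt X y n) (fun ω => ((L ω, Z ω), C ω)) := by
    have a1 := CH_le_add hp (fun ω => dv X (y ω)) Z (fun ω => (L ω, C ω))
    have a2 : CH p (fun ω => dv X (y ω)) (fun ω => (Z ω, (L ω, C ω))) ≤
        CH p (pt X y n) (fun ω => ((L ω, Z ω), C ω)) := by
      have a3 : CH p (fun ω => dv X (y ω)) (fun ω => (Z ω, (L ω, C ω))) ≤
          CH p (pt X y n) (fun ω => (Z ω, (L ω, C ω))) :=
        CH_mono_left hp (fun ω ω' _ _ h => by
          simp only [pt, Prod.mk.injEq] at h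
          exact h.1.1)
      refine a3.trans (CH_mono_cond hp fun ω ω' _ _ h => ?_)
      simp only [Prod.mk.injEq] at h ⊢
      tauto
    have e1 : (d - (ε + κ * ((d + 1) * (1 + Real.log (3 * R) / Real.log 2)))) * X *
        Real.log 2 = (d - ε) * X * Real.log 2 -
          κ * ((d + 1) * (X * Real.log 2 + X * Real.log (3 * R))) := by
      field_simp
      ring
    rw [e1]
    have hl3 : 0 ≤ Real.log (3 * R) := Real.log_nonneg (by linarith)
    have a5 : κ * ((d + 1) * (X * Real.log 2 + Real.log (3 * R))) ≤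
        κ * ((d + 1) * (X * Real.log 2 + X * Real.log (3 * R))) := by
      refine mul_le_mul_of_nonneg_left (mul_le_mul_of_nonneg_left ?_ (by positivity)) hκ0
      nlinarith
    linarith
  obtain ⟨G, hG⟩ := lemF_pop hp h1 (d := d) (K := 1) (X := X) hR
    (B := (d + 1) * (R + e + 1 + d * R * S)) (e := e + 1) C (fun ω => (L ω, Z ω)) P hdeg hB y n
    hy hn' hX ha hfull' hnon
  refine ⟨G, κ, hκ0, by linarith, ?_⟩
  have h5 : PrE p (fun ω => ∀ v, |eval (y ω) (pderiv v (P (C ω) (L ω, Z ω))) -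
        G (pt X y n ω, C ω) v| ≤ 2 * (2 : ℝ) ^ (-(a * X)) +
          d * ((1 + 1) ^ (d + 1) * (((1 + 1) * ((d + 1) * (R + e + 1 + d * R * S))) *
            (R + 1) ^ 1)) * ((2 : ℝ) ^ X)⁻¹) ≤
      PrE p (fun ω => ∀ v, |g (C ω) (L ω) v - G (pt X y n ω, C ω) v| ≤
        2 * (2 : ℝ) ^ (-(a * X)) +
          d * ((1 + 1) ^ (d + 1) * (((1 + 1) * ((d + 1) * (R + e + 1 + d * R * S))) *
            (R + 1) ^ 1)) * ((2 : ℝ) ^ X)⁻¹) + κ := by
    rw [hκ]
    simp only [PrE_eq]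
    rw [← Finset.sum_add_distrib]
    refine Finset.sum_le_sum fun ω _ => ?_
    by_cases h : S < ‖g (C ω) (L ω)‖
    · rw [if_pos h]
      have := hp ω
      split_ifs <;> linarith
    · rw [if_neg h, add_zero]
      have e1 : ∀ v, eval (y ω) (pderiv v (P (C ω) (L ω, Z ω))) = g (C ω) (L ω) v := by
        intro v
        rw [hP1 ω h, afP_pd]
      simp only [e1]
      exact le_rfl
  have h6 := hG
  push_cast at h6 h5 ⊢
  linarith

end

/-- **LEMMA F for affine sheets.**  `(y, n)` to `X` digits on the sheet `n = g . y + m` (the slopes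
and the height are functions of the context and of the label, without any bound); the base `y` is
full given the sheet up to `ε X` digits, the point is nonfull given the context by `c X` digits.
Then the slopes are functions of the point and of the context, to `a X` digits, with probability
`c - 2 ε - a - O (s + ε / s + log X / (s X))`. -/
theorem aff_pop (d R : ℕ) (hR : 1 ≤ R) (e : ℝ) (he : 0 ≤ e) : ∃ K₁ : ℝ, 0 < K₁ ∧
    ∀ {Ω 𝒞 Λ : Type} [Fintype Ω] {p : Ω → ℝ} (_ : ∀ ω, 0 ≤ p ω) (_ : ∑ ω, p ω = 1)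
    {X : ℕ} (C : Ω → 𝒞) (L : Ω → Λ) (g : 𝒞 → Λ → Fin d → ℝ) (m : 𝒞 → Λ → ℝ)
    (y : Ω → Fin d → ℝ) (n : Ω → ℝ) (_ : ∀ ω, 0 < p ω → ∀ i, |y ω i| ≤ R)
    (_ : ∀ ω, 0 < p ω → |n ω| ≤ R)
    (_ : ∀ ω, 0 < p ω → |n ω - (∑ i, g (C ω) (L ω) i * y ω i + m (C ω) (L ω))| ≤
      e * ((2 : ℝ) ^ X)⁻¹)
    (_ : 1 ≤ X) {ε c s a : ℝ} (_ : 0 ≤ ε) (_ : 0 < a) (_ : 0 < s) (_ : a + s ≤ 1)
    (_ : (d - ε) * X * Real.log 2 ≤ CH p (fun ω => dv X (y ω)) (fun ω => (L ω, C ω)))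
    (_ : CH p (pt X y n) C ≤ (d + 1 - c) * X * Real.log 2),
    ∃ G : ((Fin d → ℤ) × ℤ) × 𝒞 → Fin d → ℝ,
      c - a - 2 * ε - K₁ * (s + ε / s + (1 + Real.log (X + 1)) / (s * X)) ≤
      PrE p (fun ω => ∀ v, |g (C ω) (L ω) v - G (pt X y n ω, C ω) v| ≤
        K₁ * (2 : ℝ) ^ (-(a * X))) := by
  have hRr : (1 : ℝ) ≤ R := by exact_mod_cast hR
  have hd0 : (0 : ℝ) ≤ d := Nat.cast_nonneg _
  have hl2 : 0 < Real.log 2 := Real.log_pos (by norm_num)
  have hl3 : 0 ≤ Real.log (3 * R) := Real.log_nonneg (by linarith)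
  have hnF := nF_ge (d := d) hR he
  have hlnF : 0 ≤ Real.log (nF d R e) := Real.log_nonneg hnF
  obtain ⟨B₀, hB₀⟩ : ∃ B₀ : ℝ, B₀ = (d + 1) * (R + e + 1 + d * R) := ⟨_, rfl⟩
  have hB0 : 0 < B₀ := by
    rw [hB₀]
    positivity
  obtain ⟨K₃, hK₃⟩ : ∃ K₃ : ℝ, K₃ = d * ((1 + 1) ^ (d + 1) * (B₀ * (R + 1) ^ 1)) + (e + 2) :=
    ⟨_, rfl⟩
  have hK3 : 2 ≤ K₃ := by
    rw [hK₃]
    have : 0 ≤ (d : ℝ) * ((1 + 1) ^ (d + 1) * (B₀ * (R + 1) ^ 1)) := by positivity
    linarith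
  obtain ⟨K₅, hK₅⟩ : ∃ K₅ : ℝ, K₅ = (3 * R) ^ d * (3 * (10 * d + 1) * K₃ ^ 2) := ⟨_, rfl⟩
  have hK5 : 1 ≤ K₅ := by
    rw [hK₅]
    have a1 : (1 : ℝ) ≤ (3 * R) ^ d := one_le_pow₀ (by linarith)
    have a2 : (1 : ℝ) ≤ 3 * (10 * d + 1) := by linarith
    have a3 : (1 : ℝ) ≤ K₃ ^ 2 := one_le_pow₀ (by linarith)
    have a4 := one_le_mul_of_one_le_of_one_le a2 a3
    exact one_le_mul_of_one_le_of_one_le a1 a4
  have hlK5 : 0 ≤ Real.log K₅ := Real.log_nonneg hK5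
  obtain ⟨K₆, hK₆⟩ : ∃ K₆ : ℝ, K₆ = 1 + 2 * ((d + 1) * (1 + Real.log (3 * R) / Real.log 2)) :=
    ⟨_, rfl⟩
  have hK6 : 0 < K₆ := by
    rw [hK₆]
    positivity
  obtain ⟨K₄, hK₄⟩ : ∃ K₄ : ℝ, K₄ = d * ((1 + 1) ^ (d + 1) * (((1 + 1) * B₀) * (R + 1) ^ 1)) :=
    ⟨_, rfl⟩
  have hK4 : 0 ≤ K₄ := by
    rw [hK₄]
    positivity
  obtain ⟨K₇, hK₇⟩ : ∃ K₇ : ℝ, K₇ = (K₆ * Real.log (nF d R e) + 1 + Real.log K₅) / Real.log 2 :=
    ⟨_, rfl⟩
  have hK7 : 0 ≤ K₇ := by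
    rw [hK₇]
    positivity
  refine ⟨2 + K₄ + K₆ + K₇, by linarith, ?_⟩
  intro Ω 𝒞 Λ _ p hp h1 X C L g m y n hy hn1 hn hX ε c s a hε ha hs has hfull hnon
  have hXr : (1 : ℝ) ≤ X := by exact_mod_cast hX
  have hX0 : (0 : ℝ) < X := by linarith
  have hs1 : s ≤ 1 := by linarith
  obtain ⟨G, κ, hκ0, hκ, hG⟩ := aff_pop0 hp h1 hR he C L g m y n hy hn1 hn hX ha hs hs1 hfull hnon
  refine ⟨G, ?_⟩
  obtain ⟨S, hSdef⟩ : ∃ S : ℝ, S = (2 : ℝ) ^ (s * X) := ⟨_, rfl⟩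
  have hS : 1 ≤ S := by
    rw [hSdef]
    exact Real.one_le_rpow (by norm_num) (by positivity)
  have hlS : Real.log S = s * X * Real.log 2 := by
    rw [hSdef, Real.log_rpow (by norm_num)]
  rw [← hSdef] at hG
  have hBS : (d + 1) * (R + e + 1 + d * R * S) ≤ B₀ * S := by
    have e0 : B₀ * S = (d + 1) * ((R + e + 1) * S + d * R * S) := by
      rw [hB₀]
      ring
    rw [e0]
    refine mul_le_mul_of_nonneg_left ?_ (by positivity)
    have h0 : (0 : ℝ) ≤ R + e + 1 := by positivity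
    have h2 : ((R : ℝ) + e + 1) * 1 ≤ (R + e + 1) * S := mul_le_mul_of_nonneg_left hS h0
    linarith
  -- the tolerance
  have htol : 2 * (2 : ℝ) ^ (-(a * X)) + d * ((1 + 1) ^ (d + 1) * (((1 + 1) *
      ((d + 1) * (R + e + 1 + d * R * S))) * (R + 1) ^ 1)) * ((2 : ℝ) ^ X)⁻¹ ≤
      (2 + K₄ + K₆ + K₇) * (2 : ℝ) ^ (-(a * X)) := by
    have a1 : (d : ℝ) * ((1 + 1) ^ (d + 1) * (((1 + 1) * ((d + 1) * (R + e + 1 + d * R * S))) *
        (R + 1) ^ 1)) ≤ K₄ * S := by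
      rw [hK₄]
      have a2 : (d : ℝ) * ((1 + 1) ^ (d + 1) * (((1 + 1) * (B₀ * S)) * (R + 1) ^ 1)) =
        d * ((1 + 1) ^ (d + 1) * (((1 + 1) * B₀) * (R + 1) ^ 1)) * S := by ring
      rw [← a2]
      refine mul_le_mul_of_nonneg_left (mul_le_mul_of_nonneg_left (mul_le_mul_of_nonneg_right
        (mul_le_mul_of_nonneg_left hBS (by norm_num)) (by positivity)) (by positivity)) hd0
    have a3 : S * ((2 : ℝ) ^ X)⁻¹ ≤ (2 : ℝ) ^ (-(a * X)) := by
      rw [hSdef, ← Real.rpow_natCast, ← Real.rpow_neg (by norm_num), ← Real.rpow_add (by norm_num)]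
      refine Real.rpow_le_rpow_of_exponent_le (by norm_num) ?_
      have a9 := mul_le_mul_of_nonneg_right has hX0.le
      have a10 : (a + s) * (X : ℝ) = a * X + s * X := by ring
      linarith only [a9, a10]
    have a4 : (d : ℝ) * ((1 + 1) ^ (d + 1) * (((1 + 1) * ((d + 1) * (R + e + 1 + d * R * S))) *
        (R + 1) ^ 1)) * ((2 : ℝ) ^ X)⁻¹ ≤ K₄ * (2 : ℝ) ^ (-(a * X)) := by
      calc _ ≤ K₄ * S * ((2 : ℝ) ^ X)⁻¹ := mul_le_mul_of_nonneg_right a1 (by positivity)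
        _ = K₄ * (S * ((2 : ℝ) ^ X)⁻¹) := by ring
        _ ≤ _ := mul_le_mul_of_nonneg_left a3 hK4
    have a5 : 0 < (2 : ℝ) ^ (-(a * X)) := by positivity
    have a6 : (2 + K₄ + K₆ + K₇) * (2 : ℝ) ^ (-(a * X)) = 2 * (2 : ℝ) ^ (-(a * X)) +
        K₄ * (2 : ℝ) ^ (-(a * X)) + K₆ * (2 : ℝ) ^ (-(a * X)) + K₇ * (2 : ℝ) ^ (-(a * X)) := by
      ring
    have a7 := mul_nonneg hK6.le a5.le
    have a8 := mul_nonneg hK7 a5.le
    rw [a6]
    linarith only [a4, a7, a8]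
  -- the constant
  have hcF : Real.log (cF d 1 R (kF d 1 R ((d + 1) * (R + e + 1 + d * R * S)) (e + 1))) ≤
      Real.log K₅ + 2 * (s * X * Real.log 2) := by
    obtain ⟨k₀, hk₀⟩ : ∃ k₀ : ℝ, k₀ = kF d 1 R ((d + 1) * (R + e + 1 + d * R * S)) (e + 1) :=
      ⟨_, rfl⟩
    rw [← hk₀]
    have b1 : k₀ ≤ K₃ * S := by
      rw [hk₀, hK₃]
      unfold kF
      push_cast
      have c1 : (d : ℝ) * ((1 + 1) ^ (d + 1) * ((d + 1) * (R + e + 1 + d * R * S) *
          (R + 1) ^ 1)) ≤ d * ((1 + 1) ^ (d + 1) * (B₀ * (R + 1) ^ 1)) * S := by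
        have c2 : (d : ℝ) * ((1 + 1) ^ (d + 1) * (B₀ * (R + 1) ^ 1)) * S =
          d * ((1 + 1) ^ (d + 1) * ((B₀ * S) * (R + 1) ^ 1)) := by ring
        rw [c2]
        refine mul_le_mul_of_nonneg_left (mul_le_mul_of_nonneg_left (mul_le_mul_of_nonneg_right
          hBS (by positivity)) (by positivity)) hd0
      have c3 : (e + 2) * 1 ≤ (e + 2) * S := mul_le_mul_of_nonneg_left hS (by positivity)
      rw [add_mul (d * ((1 + 1) ^ (d + 1) * (B₀ * (R + 1) ^ 1)) : ℝ) (e + 2) S]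
      linarith only [c1, c3]
    have b0 : 0 ≤ k₀ := by
      rw [hk₀]
      unfold kF
      have : (0 : ℝ) ≤ d * (((1 : ℕ) + 1) ^ (d + 1) * ((d + 1) * (R + e + 1 + d * R * S) *
        (R + 1) ^ 1)) := by positivity
      linarith
    have b2 : cF d 1 R k₀ ≤ K₅ * S ^ 2 := by
      unfold cF
      rw [hK₅]
      have hKS : 1 ≤ K₃ * S := one_le_mul_of_one_le_of_one_le (by linarith only [hK3]) hS
      have c1 : 2 * ((1 : ℕ) : ℝ) * d * (4 * k₀ + 1) + 1 ≤ (10 * d + 1) * (K₃ * S) := by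
        rw [Nat.cast_one, mul_one]
        have q1 := mul_le_mul_of_nonneg_left b1 hd0
        have q2 := mul_le_mul_of_nonneg_left hKS hd0
        have q3 : (2 : ℝ) * d * (4 * k₀ + 1) + 1 = 8 * (d * k₀) + 2 * (d * 1) + 1 := by ring
        have q4 : (10 * (d : ℝ) + 1) * (K₃ * S) = 10 * (d * (K₃ * S)) + K₃ * S := by ring
        rw [q3, q4]
        linarith only [q1, q2, hKS]
      have c2 : 2 * k₀ + 1 ≤ 3 * (K₃ * S) := by linarith
      calc (3 * (R : ℝ)) ^ d * (2 * ((1 : ℕ) : ℝ) * d * (4 * k₀ + 1) + 1) * (2 * k₀ + 1)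
          ≤ (3 * (R : ℝ)) ^ d * ((10 * d + 1) * (K₃ * S)) * (3 * (K₃ * S)) := by
            refine mul_le_mul (mul_le_mul_of_nonneg_left c1 (by positivity)) c2 (by linarith) ?_
            positivity
        _ = _ := by ring
    have b3 : 0 < cF d 1 R k₀ := cF_pos hR b0
    refine (Real.log_le_log b3 b2).trans (le_of_eq ?_)
    rw [Real.log_mul (by linarith) (by positivity), Real.log_pow, hlS]
    push_cast
    ring
  have hκ2 : κ ≤ ε / s + Real.log (nF d R e) / Real.log 2 * (1 / (s * X)) := by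
    have b1 : κ ≤ (ε * X * Real.log 2 + Real.log (nF d R e)) / (s * X * Real.log 2) := by
      rw [le_div_iff₀ (by positivity)]
      exact hκ
    refine b1.trans (le_of_eq ?_)
    field_simp
  have hlX : 0 ≤ Real.log ((X : ℝ) + 1) := Real.log_nonneg (by linarith)
  have hterm : (Real.log (X + 1) + Real.log (cF d 1 R (kF d 1 R
      ((d + 1) * (R + e + 1 + d * R * S)) (e + 1)))) / (X * Real.log 2) ≤
      2 * s + (1 + Real.log K₅) / Real.log 2 * ((1 + Real.log (X + 1)) / (s * X)) := by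
    have b1 : (Real.log (X + 1) + Real.log (cF d 1 R (kF d 1 R
      ((d + 1) * (R + e + 1 + d * R * S)) (e + 1)))) / (X * Real.log 2) ≤
      (Real.log (X + 1) + (Real.log K₅ + 2 * (s * X * Real.log 2))) / (X * Real.log 2) :=
      div_le_div_of_nonneg_right (by linarith) (by positivity)
    refine b1.trans ?_
    have b2 : (Real.log (X + 1) + (Real.log K₅ + 2 * (s * X * Real.log 2))) / (X * Real.log 2) =
        2 * s + (Real.log (X + 1) + Real.log K₅) / Real.log 2 * (1 / X) := by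
      field_simp
      ring
    rw [b2]
    have b3 : (Real.log (X + 1) + Real.log K₅) / Real.log 2 * (1 / X) ≤
        (1 + Real.log K₅) / Real.log 2 * ((1 + Real.log (X + 1)) / (s * X)) := by
      have c1 : (Real.log (X + 1) + Real.log K₅) ≤ (1 + Real.log K₅) * (1 + Real.log (X + 1)) := by
        have q1 := mul_nonneg hlK5 hlX
        have q2 : (1 + Real.log K₅) * (1 + Real.log ((X : ℝ) + 1)) = 1 + Real.log K₅ +
          Real.log (X + 1) + Real.log K₅ * Real.log (X + 1) := by ring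
        rw [q2]
        linarith only [q1]
      have c2 : (1 : ℝ) / X ≤ 1 / (s * X) := by
        refine one_div_le_one_div_of_le (by positivity) ?_
        exact mul_le_of_le_one_left hX0.le hs1
      calc (Real.log (X + 1) + Real.log K₅) / Real.log 2 * (1 / X)
          ≤ ((1 + Real.log K₅) * (1 + Real.log (X + 1))) / Real.log 2 * (1 / (s * X)) := by
            refine mul_le_mul (div_le_div_of_nonneg_right c1 hl2.le) c2 (by positivity)
              (by positivity)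
        _ = _ := by ring
    linarith
  have hev := PrE_mono hp (A := fun ω => ∀ v, |g (C ω) (L ω) v - G (pt X y n ω, C ω) v| ≤
        2 * (2 : ℝ) ^ (-(a * X)) +
          d * ((1 + 1) ^ (d + 1) * (((1 + 1) * ((d + 1) * (R + e + 1 + d * R * S))) *
            (R + 1) ^ 1)) * ((2 : ℝ) ^ X)⁻¹)
    (A' := fun ω => ∀ v, |g (C ω) (L ω) v - G (pt X y n ω, C ω) v| ≤
        (2 + K₄ + K₆ + K₇) * (2 : ℝ) ^ (-(a * X)))
    (fun ω _ h v => (h v).trans htol)
  refine le_trans ?_ (hG.trans hev)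
  have e1 : c - 2 * (ε + κ * ((d + 1) * (1 + Real.log (3 * R) / Real.log 2))) - a - κ =
      c - a - 2 * ε - κ * K₆ := by
    rw [hK₆]
    ring
  rw [e1]
  have hw : 0 ≤ (1 + Real.log (X + 1)) / (s * X) := by positivity
  have hw2 : 1 / (s * X) ≤ (1 + Real.log (X + 1)) / (s * X) :=
    div_le_div_of_nonneg_right (by linarith) (by positivity)
  have hes : 0 ≤ ε / s := by positivity
  have b1 : κ * K₆ ≤ K₆ * (ε / s) + K₆ * Real.log (nF d R e) / Real.log 2 *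
      ((1 + Real.log (X + 1)) / (s * X)) := by
    have c1 := mul_le_mul_of_nonneg_right hκ2 hK6.le
    have c2 : Real.log (nF d R e) / Real.log 2 * (1 / (s * X)) ≤
      Real.log (nF d R e) / Real.log 2 * ((1 + Real.log (X + 1)) / (s * X)) :=
      mul_le_mul_of_nonneg_left hw2 (by positivity)
    have c3 := mul_le_mul_of_nonneg_left c2 hK6.le
    calc κ * K₆ ≤ _ := c1
      _ = K₆ * (ε / s) + K₆ * (Real.log (nF d R e) / Real.log 2 * (1 / (s * X))) := by ring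
      _ ≤ K₆ * (ε / s) + K₆ * (Real.log (nF d R e) / Real.log 2 *
        ((1 + Real.log (X + 1)) / (s * X))) := by linarith only [c3]
      _ = _ := by ring
  have e2 : K₇ * ((1 + Real.log (X + 1)) / (s * X)) =
      K₆ * Real.log (nF d R e) / Real.log 2 * ((1 + Real.log (X + 1)) / (s * X)) +
        (1 + Real.log K₅) / Real.log 2 * ((1 + Real.log (X + 1)) / (s * X)) := by
    rw [hK₇]
    ring
  obtain ⟨z, hz⟩ : ∃ z : ℝ, z = ε / s := ⟨_, rfl⟩
  obtain ⟨w, hwd⟩ : ∃ w : ℝ, w = (1 + Real.log (X + 1)) / (s * X) := ⟨_, rfl⟩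
  rw [← hz] at b1 hes
  rw [← hwd] at b1 hw hterm e2
  rw [← hz, ← hwd]
  have e3 : (2 + K₄ + K₆ + K₇) * (s + z + w) = (2 * s + K₆ * z + K₇ * w) +
      (2 * z + 2 * w + K₄ * (s + z + w) + K₆ * s + K₆ * w + K₇ * s + K₇ * z) := by ring
  have h0 : 0 ≤ 2 * z + 2 * w + K₄ * (s + z + w) + K₆ * s + K₆ * w + K₇ * s + K₇ * z := by
    positivity
  rw [e3]
  linarith only [h0, e2, b1, hterm]

end Pool.LF
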