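import Pool.Agent.H50.LJ.Cnt1
import Pool.Agent.H89.GEN.PolyA
import Pool.Agent.H42.GN.Zz

/-!
# LEMMA F (K_GEN 4.2), counting part

The grid points of a box where a polynomial is small and its gradient is not.
-/

set_option autoImplicit false

namespace Pool.LF

open Finset Real MvPolynomial
open Pool.Agent.H49.Ent Pool.Agent.H32.Dense

/-- Grid point of a cell. -/
noncomputable def gp {d : ℕ} (X : ℕ) (u : Fin d → ℤ) : Fin d → ℝ := fun i => (u i : ℝ) / 2 ^ X

/-- The restriction of a polynomial to a line parallel to an axis. -/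
noncomputable def lin {d : ℕ} (D : MvPolynomial (Fin d) ℝ) (v : Fin d) (y : Fin d → ℝ) :
    Polynomial ℝ :=
  aeval (fun j => if j = v then Polynomial.X + Polynomial.C (y j) else Polynomial.C (y j)) D

theorem eval_lin {d : ℕ} (D : MvPolynomial (Fin d) ℝ) (v : Fin d) (y : Fin d → ℝ) (s : ℝ) :
    (lin D v y).eval s = eval (fun j => y j + s * (if j = v then 1 else 0)) D := by
  unfold lin
  rw [aeval_def, polynomial_eval_eval₂]
  have h1 : ((Polynomial.evalRingHom s).comp (algebraMap ℝ (Polynomial ℝ))) = RingHom.id ℝ := by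
    ext x
    simp
  rw [h1]
  show eval₂ (RingHom.id ℝ) _ D = eval₂ (RingHom.id ℝ) _ D
  congr 1
  funext j
  by_cases h : j = v
  · simp [h, add_comm]
  · simp [h]

theorem deriv_lin {d : ℕ} (D : MvPolynomial (Fin d) ℝ) (v : Fin d) (y : Fin d → ℝ) (s : ℝ) :
    (lin D v y).derivative.eval s =
      eval (fun j => y j + s * (if j = v then 1 else 0)) (pderiv v D) := by
  have h1 := (lin D v y).hasDerivAt s
  have h2 := Pool.POLY.hasDerivAt_seg D y (fun j => if j = v then 1 else 0) s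
  have h3 : (fun t : ℝ => eval (fun i => y i + t * (if i = v then 1 else 0)) D) =
      fun t => (lin D v y).eval t := by
    funext t
    rw [eval_lin]
  rw [h3] at h2
  rw [h1.unique h2]
  rw [Finset.sum_eq_single v]
  · simp
  · intro b _ hb
    simp [hb]
  · intro h
    exact absurd (Finset.mem_univ _) h

theorem degree_lin {d K : ℕ} (D : MvPolynomial (Fin d) ℝ) (hD : D.totalDegree ≤ K) (v : Fin d)
    (y : Fin d → ℝ) : (lin D v y).natDegree ≤ K := by
  unfold lin
  have := aeval_natDegree_le D hD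
    (fun j => if j = v then Polynomial.X + Polynomial.C (y j) else Polynomial.C (y j)) (n := 1)
    (by
      intro i
      by_cases h : i = v
      · rw [if_pos h]
        exact (Polynomial.natDegree_add_C).le.trans Polynomial.natDegree_X_le
      · rw [if_neg h, Polynomial.natDegree_C]
        exact Nat.zero_le _)
  rwa [mul_one] at this

/-- Counting in the direction of one axis. -/
theorem cnt_axis {d K R X : ℕ} (D : MvPolynomial (Fin d) ℝ) (hD : D.totalDegree ≤ K) {a b : ℝ}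
    (ha : 0 ≤ a) (hb : 0 < b) (v : Fin d) (F : Finset (Fin d → ℤ))
    (hF : ∀ u ∈ F, (∀ i, |u i| ≤ R * 2 ^ X) ∧ |eval (gp X u) D| ≤ a ∧
      b ≤ |eval (gp X u) (pderiv v D)|) :
    (F.card : ℝ) ≤ (2 * K * (2 * a * 2 ^ X / b + 1)) * (2 * R * 2 ^ X + 1) ^ (d - 1) := by
  classical
  have hM : 0 < 2 ^ X := by positivity
  -- the fibres
  obtain ⟨f, hf⟩ : ∃ f : (Fin d → ℤ) → ({i : Fin d // i ≠ v} → ℤ), ∀ u, f u = fun i => u i.1 :=
    ⟨_, fun _ => rfl⟩
  have hB0 : 0 ≤ 2 * (K : ℝ) * (2 * a * 2 ^ X / b + 1) := by positivity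
  have hfib : ∀ z ∈ F.image f, (F.filter (fun u => f u = z)).card ≤
      ⌊2 * (K : ℝ) * (2 * a * 2 ^ X / b + 1)⌋₊ := by
    intro z _
    refine Nat.le_floor ?_
    rcases (F.filter (fun u => f u = z)).eq_empty_or_nonempty with h0 | ⟨u₀, hu₀⟩
    · rw [h0, Finset.card_empty, Nat.cast_zero]
      exact hB0
    rw [Finset.mem_filter] at hu₀
    -- the injection into the naturals
    obtain ⟨τ, hτ⟩ : ∃ τ : (Fin d → ℤ) → ℕ, ∀ u, τ u = (u v + R * 2 ^ X).toNat :=
      ⟨_, fun _ => rfl⟩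
    have hpos : ∀ u ∈ F, ((τ u : ℕ) : ℤ) = u v + R * 2 ^ X := by
      intro u hu
      rw [hτ, Int.toNat_of_nonneg]
      have := (abs_le.1 ((hF u hu).1 v)).1
      linarith
    have hinj : Set.InjOn τ (F.filter (fun u => f u = z) : Finset _) := by
      intro u hu u' hu' h
      rw [Finset.mem_coe, Finset.mem_filter] at hu hu'
      funext i
      by_cases hi : i = v
      · subst hi
        have h1 := hpos u hu.1
        have h2 := hpos u' hu'.1
        rw [h] at h1
        linarith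
      · have h1 := hu.2.trans hu'.2.symm
        rw [hf, hf] at h1
        exact congrFun h1 ⟨i, hi⟩
    rw [← Finset.card_image_of_injOn hinj]
    obtain ⟨y, hy⟩ : ∃ y : Fin d → ℝ, ∀ j, y j = if j = v then -(R : ℝ) else gp X u₀ j :=
      ⟨_, fun _ => rfl⟩
    have hpt : ∀ u ∈ F.filter (fun u => f u = z),
        (fun j => y j + (((τ u : ℕ) : ℝ) / ((2 ^ X : ℕ) : ℝ)) * (if j = v then 1 else 0)) =
          gp X u := by
      intro u hu
      rw [Finset.mem_filter] at hu
      funext j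
      have h1 : ((τ u : ℕ) : ℝ) = (u v : ℝ) + R * 2 ^ X := by
        have := hpos u hu.1
        exact_mod_cast this
      rw [hy, h1]
      unfold gp
      by_cases hj : j = v
      · subst hj
        rw [if_pos rfl, if_pos rfl]
        push_cast
        have h2 : (2 : ℝ) ^ X ≠ 0 := by positivity
        field_simp
        ring
      · rw [if_neg hj, if_neg hj, mul_zero, add_zero]
        have h1 := hu.2.trans hu₀.2.symm
        rw [hf, hf] at h1
        have h2 := congrFun h1 ⟨j, hj⟩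
        simp only at h2
        rw [h2]
    have h3 := Pool.LJ.cnt1 (lin D v y) K (degree_lin D hD v y) a b ha hb (2 ^ X) hM
      ((F.filter (fun u => f u = z)).image τ) (by
        intro t ht
        rw [Finset.mem_image] at ht
        obtain ⟨u, hu, rfl⟩ := ht
        rw [eval_lin, deriv_lin, hpt u hu]
        exact (hF u (Finset.mem_filter.1 hu).1).2)
    push_cast at h3
    exact h3
  have h1 := Finset.card_le_mul_card_image F _ hfib
  have h2 : (F.image f).card ≤ (2 * R * 2 ^ X + 1) ^ (d - 1) := by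
    have h3 : F.image f ⊆ Fintype.piFinset
        (fun _ : {i : Fin d // i ≠ v} => Finset.Icc (-(R * 2 ^ X : ℤ)) (R * 2 ^ X : ℤ)) := by
      intro z hz
      rw [Finset.mem_image] at hz
      obtain ⟨u, hu, rfl⟩ := hz
      rw [Fintype.mem_piFinset]
      intro i
      rw [hf, Finset.mem_Icc]
      exact abs_le.1 ((hF u hu).1 i)
    refine (Finset.card_le_card h3).trans ?_
    rw [Fintype.card_piFinset, Finset.prod_const, Finset.card_univ, Int.card_Icc]
    have h4 : Fintype.card {i : Fin d // i ≠ v} = d - 1 := by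
      rw [Fintype.card_subtype_compl, Fintype.card_fin, Fintype.card_subtype_eq]
    rw [h4]
    refine Nat.pow_le_pow_left ?_ _
    have h5 : ((R * 2 ^ X : ℤ) + 1 - -(R * 2 ^ X : ℤ)) = ((2 * R * 2 ^ X + 1 : ℕ) : ℤ) := by
      push_cast
      ring
    rw [h5, Int.toNat_natCast]
  calc (F.card : ℝ) ≤ ((⌊2 * (K : ℝ) * (2 * a * 2 ^ X / b + 1)⌋₊ * (F.image f).card : ℕ) : ℝ) := by
        exact_mod_cast h1
    _ = (⌊2 * (K : ℝ) * (2 * a * 2 ^ X / b + 1)⌋₊ : ℝ) * ((F.image f).card : ℝ) := by push_cast; ring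
    _ ≤ (2 * K * (2 * a * 2 ^ X / b + 1)) * (2 * R * 2 ^ X + 1) ^ (d - 1) := by
        refine mul_le_mul (Nat.floor_le hB0) ?_ (Nat.cast_nonneg _) hB0
        exact_mod_cast h2

/-- The number of digits to which the gradient of `D` vanishes at a grid point is at most `k`. -/
def GV {d : ℕ} (X : ℕ) (D : MvPolynomial (Fin d) ℝ) (u : Fin d → ℤ) (k : ℕ) : Prop :=
  k = X ∨ ∃ v, ((2 : ℝ) ^ k)⁻¹ ≤ |eval (gp X u) (pderiv v D)|

theorem ex_GV {d : ℕ} (X : ℕ) (D : MvPolynomial (Fin d) ℝ) (u : Fin d → ℤ) : ∃ k, GV X D u k :=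
  ⟨X, Or.inl rfl⟩

open Classical in
/-- The number of digits, at most `X`, to which the gradient of `D` vanishes at a grid point. -/
noncomputable def gk {d : ℕ} (X : ℕ) (D : MvPolynomial (Fin d) ℝ) (u : Fin d → ℤ) : ℕ :=
  Nat.find (ex_GV X D u)

theorem gk_le {d : ℕ} (X : ℕ) (D : MvPolynomial (Fin d) ℝ) (u : Fin d → ℤ) : gk X D u ≤ X := by
  classical
  exact Nat.find_min' _ (Or.inl rfl)

theorem gk_spec {d : ℕ} (X : ℕ) (D : MvPolynomial (Fin d) ℝ) (u : Fin d → ℤ) :
    GV X D u (gk X D u) := by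
  classical
  exact Nat.find_spec (ex_GV X D u)

theorem gk_lt {d : ℕ} {X : ℕ} {D : MvPolynomial (Fin d) ℝ} {u : Fin d → ℤ} {k : ℕ}
    (h : k < gk X D u) (v : Fin d) : |eval (gp X u) (pderiv v D)| < ((2 : ℝ) ^ k)⁻¹ := by
  classical
  have := Nat.find_min (ex_GV X D u) h
  unfold GV at this
  push Not at this
  exact this.2 v

/-- If at least `j ≥ 1` digits vanish, the partial derivatives are at most `2 · 2 ^ (-j)`. -/
theorem gk_small {d : ℕ} {X : ℕ} {D : MvPolynomial (Fin d) ℝ} {u : Fin d → ℤ} {a : ℝ}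
    (ha : 0 < a) (h : a ≤ gk X D u) (v : Fin d) :
    |eval (gp X u) (pderiv v D)| ≤ 2 * (2 : ℝ) ^ (-a) := by
  have h1 : 1 ≤ gk X D u := by
    by_contra h2
    have h3 : gk X D u = 0 := by omega
    rw [h3, Nat.cast_zero] at h
    linarith
  have h2 := (gk_lt (X := X) (D := D) (u := u) (k := gk X D u - 1) (by omega) v).le
  refine h2.trans ?_
  have h3 : ((2 : ℝ) ^ (gk X D u - 1))⁻¹ = 2 * (2 : ℝ) ^ (-(gk X D u : ℝ)) := by
    rw [Real.rpow_neg (by norm_num), Real.rpow_natCast]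
    have h4 : (2 : ℝ) ^ (gk X D u) = 2 ^ (gk X D u - 1) * 2 := by
      rw [← pow_succ]
      congr 1
      omega
    rw [h4]
    field_simp
  rw [h3]
  refine mul_le_mul_of_nonneg_left ?_ (by norm_num)
  exact Real.rpow_le_rpow_of_exponent_le (by norm_num) (by linarith)

/-- Counting the cells by the size of the gradient. -/
theorem cnt_gk {d K R X : ℕ} (hR : 1 ≤ R) (D : MvPolynomial (Fin d) ℝ) (hD : D.totalDegree ≤ K)
    {K₀ : ℝ} (hK₀ : 0 ≤ K₀) (k : ℕ) (F : Finset (Fin d → ℤ))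
    (hF : ∀ u ∈ F, (∀ i, |u i| ≤ R * 2 ^ X) ∧ |eval (gp X u) D| ≤ 2 * K₀ / 2 ^ X ∧
      gk X D u = k) :
    (F.card : ℝ) ≤ (3 * R) ^ d * (2 * K * d * (4 * K₀ + 1) + 1) * ((2 ^ X) ^ d * 2 ^ k / 2 ^ X) := by
  classical
  have hRr : (1 : ℝ) ≤ R := by exact_mod_cast hR
  have hM1 : (1 : ℝ) ≤ 2 ^ X := one_le_pow₀ (by norm_num)
  have hbox : (2 * (R : ℝ) * 2 ^ X + 1) ≤ 3 * R * 2 ^ X := by nlinarith
  rcases F.eq_empty_or_nonempty with h0 | ⟨u₀, hu₀⟩
  · rw [h0, Finset.card_empty, Nat.cast_zero]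
    positivity
  have hkX : k ≤ X := by
    rw [← (hF u₀ hu₀).2.2]
    exact gk_le _ _ _
  rcases hkX.eq_or_lt with hk | hk
  · -- all cells
    have h1 : F ⊆ Fintype.piFinset
        (fun _ : Fin d => Finset.Icc (-(R * 2 ^ X : ℤ)) (R * 2 ^ X : ℤ)) := by
      intro u hu
      rw [Fintype.mem_piFinset]
      intro i
      rw [Finset.mem_Icc]
      exact abs_le.1 ((hF u hu).1 i)
    have h2 := Finset.card_le_card h1
    rw [Fintype.card_piFinset, Finset.prod_const, Finset.card_univ, Int.card_Icc,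
      Fintype.card_fin] at h2
    have h5 : ((R * 2 ^ X : ℤ) + 1 - -(R * 2 ^ X : ℤ)) = ((2 * R * 2 ^ X + 1 : ℕ) : ℤ) := by
      push_cast
      ring
    rw [h5, Int.toNat_natCast] at h2
    have h3 : (F.card : ℝ) ≤ (2 * R * 2 ^ X + 1) ^ d := by exact_mod_cast h2
    refine h3.trans ((pow_le_pow_left₀ (by positivity) hbox d).trans ?_)
    rw [hk, mul_div_cancel_right₀ _ (by positivity : (2 : ℝ) ^ X ≠ 0), mul_pow]
    have h6 : (1 : ℝ) ≤ 2 * K * d * (4 * K₀ + 1) + 1 := by
      have : (0 : ℝ) ≤ 2 * K * d * (4 * K₀ + 1) := by positivity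
      linarith
    have h7 : (0 : ℝ) ≤ (3 * (R : ℝ)) ^ d * (2 ^ X) ^ d := by positivity
    nlinarith [mul_le_mul_of_nonneg_left h6 h7]
  · -- the gradient is not small
    have h1 : F ⊆ univ.biUnion fun v : Fin d =>
        F.filter (fun u => ((2 : ℝ) ^ k)⁻¹ ≤ |eval (gp X u) (pderiv v D)|) := by
      intro u hu
      rw [Finset.mem_biUnion]
      have h2 := gk_spec X D u
      rw [(hF u hu).2.2] at h2
      rcases h2 with h3 | ⟨v, hv⟩
      · omega
      · exact ⟨v, Finset.mem_univ _, Finset.mem_filter.2 ⟨hu, hv⟩⟩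
    have h2 : (F.card : ℝ) ≤ ∑ v : Fin d,
        ((F.filter (fun u => ((2 : ℝ) ^ k)⁻¹ ≤ |eval (gp X u) (pderiv v D)|)).card : ℝ) := by
      have := (Finset.card_le_card h1).trans Finset.card_biUnion_le
      exact_mod_cast this
    have h3 : ∀ v : Fin d,
        ((F.filter (fun u => ((2 : ℝ) ^ k)⁻¹ ≤ |eval (gp X u) (pderiv v D)|)).card : ℝ) ≤
        2 * K * ((4 * K₀ + 1) * 2 ^ k) * (3 * R * 2 ^ X) ^ (d - 1) := by
      intro v
      refine (cnt_axis (R := R) (X := X) D hD (a := 2 * K₀ / 2 ^ X) (b := ((2 : ℝ) ^ k)⁻¹)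
        (by positivity) (by positivity) v _ ?_).trans ?_
      · intro u hu
        rw [Finset.mem_filter] at hu
        exact ⟨(hF u hu.1).1, (hF u hu.1).2.1, hu.2⟩
      · refine mul_le_mul ?_ (pow_le_pow_left₀ (by positivity) hbox _) (by positivity)
          (by positivity)
        refine mul_le_mul_of_nonneg_left ?_ (by positivity)
        have h4 : 2 * (2 * K₀ / 2 ^ X) * 2 ^ X / ((2 : ℝ) ^ k)⁻¹ = 4 * K₀ * 2 ^ k := by
          field_simp
          ring
        rw [h4]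
        have h5 : (1 : ℝ) ≤ 2 ^ k := one_le_pow₀ (by norm_num)
        nlinarith
    refine h2.trans ((Finset.sum_le_sum fun v _ => h3 v).trans ?_)
    rw [Finset.sum_const, Finset.card_univ, Fintype.card_fin, nsmul_eq_mul]
    rcases Nat.eq_zero_or_pos d with hd | hd
    · subst hd
      simp only [Nat.cast_zero, zero_mul]
      positivity
    obtain ⟨e, rfl⟩ : ∃ e, d = e + 1 := ⟨d - 1, by omega⟩
    rw [Nat.add_sub_cancel]
    have h6 : (2 ^ X : ℝ) ^ (e + 1) * 2 ^ k / 2 ^ X = (2 ^ X) ^ e * 2 ^ k := by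
      rw [pow_succ]
      field_simp
    rw [h6, mul_pow (3 * (R : ℝ)) (2 ^ X) e, pow_succ (3 * (R : ℝ)) e]
    have h7 : (1 : ℝ) ≤ 3 * R := by linarith
    have h8 : (0 : ℝ) ≤ (3 * (R : ℝ)) ^ e * ((2 ^ X) ^ e * 2 ^ k) := by positivity
    have h9 : (0 : ℝ) ≤ 2 * K * (e + 1) * (4 * K₀ + 1) := by positivity
    push_cast
    calc ((e : ℝ) + 1) * (2 * K * ((4 * K₀ + 1) * 2 ^ k) * ((3 * R) ^ e * (2 ^ X) ^ e))
        = ((3 * (R : ℝ)) ^ e * ((2 ^ X) ^ e * 2 ^ k)) * (2 * K * (e + 1) * (4 * K₀ + 1)) := by ring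
      _ ≤ ((3 * (R : ℝ)) ^ e * ((2 ^ X) ^ e * 2 ^ k)) *
          ((3 * R) * (2 * K * (e + 1) * (4 * K₀ + 1) + 1)) := by
          refine mul_le_mul_of_nonneg_left ?_ h8
          nlinarith
      _ = _ := by ring

end Pool.LF
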