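import Pool.Agent.H36.LF.Main

/-!
# LEMMA F, event form and popular value of the gradient
-/

set_option autoImplicit false

namespace Pool.LF

open Finset Real MvPolynomial
open Pool.Agent.H49.Ent Pool.Agent.H32.Dense Pool.GNZ

/-- Markov from above: a variable with values in `[0, M]` and mean `≥ m` is at least `t` with
probability at least `(m - t) / M`. -/
theorem mean_event {Ω : Type} [Fintype Ω] {p : Ω → ℝ} (hp : ∀ ω, 0 ≤ p ω) (h1 : ∑ ω, p ω = 1)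
    (f : Ω → ℝ) {M t : ℝ} (ht : 0 ≤ t) (hf : ∀ ω, f ω ≤ M) :
    Ex p f ≤ t + M * PrE p (fun ω => t ≤ f ω) := by
  classical
  unfold Ex PrE
  have e : t + M * ∑ ω, (if t ≤ f ω then p ω else 0) =
      ∑ ω, (p ω * t + M * (if t ≤ f ω then p ω else 0)) := by
    rw [Finset.sum_add_distrib, ← Finset.sum_mul, h1, one_mul, Finset.mul_sum]
  rw [e]
  refine Finset.sum_le_sum fun ω _ => ?_
  by_cases h : t ≤ f ω
  · rw [if_pos h]
    nlinarith [mul_le_mul_of_nonneg_left (hf ω) (hp ω), mul_nonneg (hp ω) ht]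
  · rw [if_neg h, mul_zero, add_zero]
    exact mul_le_mul_of_nonneg_left (not_le.1 h).le (hp ω)

section

variable {Ω 𝒞 Λ : Type} [Fintype Ω] {p : Ω → ℝ} (hp : ∀ ω, 0 ≤ p ω) (h1 : ∑ ω, p ω = 1)
    {d K R X : ℕ} (hR : 1 ≤ R) {B e : ℝ} (C : Ω → 𝒞) (L : Ω → Λ)
    (P : 𝒞 → Λ → MvPolynomial (Fin d) ℝ) (hdeg : ∀ c l, (P c l).totalDegree ≤ K)
    (hB : ∀ ω, 0 < p ω → ∀ m, |coeff m (P (C ω) (L ω))| ≤ B)
    (y : Ω → Fin d → ℝ) (n : Ω → ℝ) (hy : ∀ ω, 0 < p ω → ∀ i, |y ω i| ≤ R)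
    (hn : ∀ ω, 0 < p ω → |n ω - eval (y ω) (P (C ω) (L ω))| ≤ e * ((2 : ℝ) ^ X)⁻¹)

include hp h1 hR hdeg hB hy hn

/-- **LEMMA F, event form.**  `x` full along the leaf up to `ε X`, the rows of `n` not full by
`c X`: with probability at least `c - 2 ε - a - o(1)` the gradients of two conditional copies of
the leaf agree to `a X` digits at `x`. -/
theorem lemF_event (hX : 1 ≤ X) {ε c a : ℝ} (ha : 0 ≤ a)
    (hfull : (d - ε) * X * Real.log 2 ≤ CH p (pt X y n) (fun ω => (L ω, C ω)))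
    (hnon : CH p (pt X y n) C ≤ (d + 1 - c) * X * Real.log 2) :
    c - 2 * ε - a -
        (Real.log (X + 1) + Real.log (cF d K R (kF d K R B e))) / (X * Real.log 2) ≤
      PrE (cp p (fun ω => (pt X y n ω, C ω))) (fun w =>
        a * X ≤ (gk X (P (C w.1) (L w.1) - P (C w.1) (L w.2)) (dv X (y w.1)) : ℝ)) := by
  have hXr : (1 : ℝ) ≤ X := by exact_mod_cast hX
  have hl : 0 < Real.log 2 := Real.log_pos (by norm_num)
  have h2 := lemF hp h1 (X := X) hR C L P hdeg hB y n hy hn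
  have h3 := mean_event (cp_nonneg hp (fun ω => (pt X y n ω, C ω)))
    (cp_sum hp h1 (fun ω => (pt X y n ω, C ω)))
    (fun w => (gk X (P (C w.1) (L w.1) - P (C w.1) (L w.2)) (dv X (y w.1)) : ℝ))
    (M := X) (t := a * X) (by positivity)
    (fun w => by exact_mod_cast gk_le _ _ _)
  obtain ⟨Q, hQ⟩ : ∃ Q, Q = PrE (cp p (fun ω => (pt X y n ω, C ω))) (fun w =>
        a * X ≤ (gk X (P (C w.1) (L w.1) - P (C w.1) (L w.2)) (dv X (y w.1)) : ℝ)) := ⟨_, rfl⟩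
  rw [← hQ] at h3 ⊢
  obtain ⟨G, hG⟩ : ∃ G, G = Ex (cp p (fun ω => (pt X y n ω, C ω)))
      (fun w => (gk X (P (C w.1) (L w.1) - P (C w.1) (L w.2)) (dv X (y w.1)) : ℝ)) := ⟨_, rfl⟩
  rw [← hG] at h2 h3
  obtain ⟨T, hT⟩ : ∃ T, T = Real.log (X + 1) + Real.log (cF d K R (kF d K R B e)) := ⟨_, rfl⟩
  rw [← hT]
  have h4 : (c - 2 * ε) * (X * Real.log 2) ≤ G * Real.log 2 + T := by
    rw [hT]
    nlinarith [h2, hfull, hnon]
  have h5 : G * Real.log 2 ≤ (a * X + X * Q) * Real.log 2 :=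
    mul_le_mul_of_nonneg_right h3 hl.le
  have h6 : 0 < X * Real.log 2 := by positivity
  have h7 : (c - 2 * ε - a - Q) * (X * Real.log 2) ≤ T := by nlinarith
  rw [← le_div_iff₀ h6] at h7
  linarith

/-- **LEMMA F, gradients of two copies.** -/
theorem lemF_grad (hX : 1 ≤ X) {ε c a : ℝ} (ha : 0 < a)
    (hfull : (d - ε) * X * Real.log 2 ≤ CH p (pt X y n) (fun ω => (L ω, C ω)))
    (hnon : CH p (pt X y n) C ≤ (d + 1 - c) * X * Real.log 2) :
    c - 2 * ε - a -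
        (Real.log (X + 1) + Real.log (cF d K R (kF d K R B e))) / (X * Real.log 2) ≤
      PrE (cp p (fun ω => (pt X y n ω, C ω))) (fun w => ∀ v,
        |eval (gp X (dv X (y w.1))) (pderiv v (P (C w.1) (L w.1))) -
          eval (gp X (dv X (y w.1))) (pderiv v (P (C w.1) (L w.2)))| ≤
            2 * (2 : ℝ) ^ (-(a * X))) := by
  have hXr : (1 : ℝ) ≤ X := by exact_mod_cast hX
  refine (lemF_event hp h1 hR C L P hdeg hB y n hy hn hX ha.le hfull hnon).trans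
    (PrE_mono (cp_nonneg hp _) ?_)
  intro w _ hw v
  have h2 := gk_small (by positivity : 0 < a * X) hw v
  rwa [map_sub, map_sub] at h2

/-- **LEMMA F, popular gradient.**  The gradient of the leaf at the point is a function of the
point `(x, C)` to `a X` digits with probability at least `c - 2 ε - a - o(1)`. -/
theorem lemF_pop (hX : 1 ≤ X) {ε c a : ℝ} (ha : 0 < a)
    (hfull : (d - ε) * X * Real.log 2 ≤ CH p (pt X y n) (fun ω => (L ω, C ω)))
    (hnon : CH p (pt X y n) C ≤ (d + 1 - c) * X * Real.log 2) :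
    ∃ G : ((Fin d → ℤ) × ℤ) × 𝒞 → Fin d → ℝ,
      c - 2 * ε - a -
        (Real.log (X + 1) + Real.log (cF d K R (kF d K R B e))) / (X * Real.log 2) ≤
      PrE p (fun ω => ∀ v, |eval (y ω) (pderiv v (P (C ω) (L ω))) - G (pt X y n ω, C ω) v| ≤
        2 * (2 : ℝ) ^ (-(a * X)) +
          d * ((K + 1) ^ (d + 1) * (((K + 1) * B) * (R + 1) ^ K)) * ((2 : ℝ) ^ X)⁻¹) := by
  classical
  have h2 := lemF_grad hp h1 hR C L P hdeg hB y n hy hn hX ha hfull hnon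
  obtain ⟨g, hg1, hg2⟩ := popular hp (fun ω => (pt X y n ω, C ω))
    (fun ω ω' => ∀ v, |eval (gp X (dv X (y ω))) (pderiv v (P (C ω) (L ω))) -
          eval (gp X (dv X (y ω))) (pderiv v (P (C ω) (L ω')))| ≤ 2 * (2 : ℝ) ^ (-(a * X))) h2
  refine ⟨fun z v => (g z).elim 0 (fun ω₀ => eval (gp X z.1.1) (pderiv v (P z.2 (L ω₀)))),
    hg2.trans ?_⟩
  refine PrE_mono hp ?_
  rintro ω hω ⟨ω₀, h3, h4⟩ v
  beta_reduce
  rw [h3, Option.elim_some]
  have h5 := h4 v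
  have h6 := gp_eval (X := X) (pderiv v (P (C ω) (L ω)))
    (Pool.POLY.totalDegree_pderiv _ v (hdeg _ _))
    (Pool.POLY.coeff_pderiv_le _ (hdeg _ _) (hB ω hω) v) (hy ω hω)
  show |eval (y ω) (pderiv v (P (C ω) (L ω))) -
    eval (gp X (dv X (y ω))) (pderiv v (P (C ω) (L ω₀)))| ≤ _
  rw [abs_le] at h5 h6 ⊢
  constructor <;> linarith [h5.1, h5.2, h6.1, h6.2]

end

end Pool.LF
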