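import Pool.Agent.H36.LF.Ev

/-!
# LEMMA F for hypersurface sheets (row 237)

The point `x = (Y, u)` of `R ^ (q + c + 1)`, known to `X` digits, on a sheet
`φ . u = G (Y)`, `|φ| = 1` (sup norm).  If `x` is full along the sheet and the rows are not full,
the covector `φ` (and the gradient of `G`), up to sign, is a function of the point.
-/

set_option autoImplicit false

namespace Pool.LF

open Finset Real MvPolynomial
open Pool.Agent.H49.Ent Pool.Agent.H32.Dense Pool.GNZ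

/-- Popular index. -/
theorem pop_idx {Ω T : Type} [Fintype Ω] (p : Ω → ℝ) {c : ℕ} (Z : Ω → T)
    (i : Ω → Fin (c + 1)) (A : Ω → Prop) :
    ∃ g : T → Fin (c + 1), PrE p A ≤ (c + 1) * PrE p (fun ω => A ω ∧ i ω = g (Z ω)) := by
  classical
  have hex : ∀ z : T, ∃ j : Fin (c + 1), ∀ k, PrE p (fun ω => Z ω = z ∧ A ω ∧ i ω = k) ≤
      PrE p (fun ω => Z ω = z ∧ A ω ∧ i ω = j) := by
    intro z
    obtain ⟨j, -, h⟩ := Finset.exists_max_image (Finset.univ : Finset (Fin (c + 1)))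
      (fun k => PrE p (fun ω => Z ω = z ∧ A ω ∧ i ω = k)) ⟨0, Finset.mem_univ _⟩
    exact ⟨j, fun k => h k (Finset.mem_univ _)⟩
  choose g hg using hex
  refine ⟨g, ?_⟩
  rw [PrE_split p Z A, PrE_split p Z (fun ω => A ω ∧ i ω = g (Z ω)), Finset.mul_sum]
  refine Finset.sum_le_sum fun z _ => ?_
  have e1 : PrE p (fun ω => Z ω = z ∧ A ω ∧ i ω = g (Z ω)) =
      PrE p (fun ω => Z ω = z ∧ A ω ∧ i ω = g z) := by
    rw [PrE_eq, PrE_eq]
    refine Finset.sum_congr rfl fun ω _ => ?_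
    by_cases h : Z ω = z
    · simp [h]
    · simp [h]
  have e2 : PrE p (fun ω => Z ω = z ∧ A ω) =
      ∑ k : Fin (c + 1), PrE p (fun ω => Z ω = z ∧ A ω ∧ i ω = k) := by
    simp only [PrE_eq]
    rw [Finset.sum_comm]
    refine Finset.sum_congr rfl fun ω _ => ?_
    by_cases h : Z ω = z ∧ A ω
    · rw [if_pos h]
      rw [Finset.sum_eq_single (i ω)]
      · simp [h.1, h.2]
      · intro b _ hb
        rw [if_neg]
        rintro ⟨-, -, h3⟩
        exact hb h3.symm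
      · intro h4
        exact absurd (Finset.mem_univ _) h4
    · rw [if_neg h]
      symm
      refine Finset.sum_eq_zero fun k _ => ?_
      rw [if_neg]
      rintro ⟨h1, h2, -⟩
      exact h ⟨h1, h2⟩
  rw [e1, e2]
  refine (Finset.sum_le_sum fun k _ => hg z k).trans (le_of_eq ?_)
  rw [Finset.sum_const, Finset.card_univ, Fintype.card_fin, nsmul_eq_mul]
  push_cast
  ring

/-- The graph of a sheet over the coordinates other than `i`. -/
noncomputable def hyP {q c : ℕ} (φ : Fin (c + 1) → ℝ) (G : MvPolynomial (Fin q) ℝ)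
    (i : Fin (c + 1)) : MvPolynomial (Fin (q + c)) ℝ :=
  C (φ i) * (rename (Fin.castAdd c) G -
    ∑ j : Fin c, C (φ (i.succAbove j)) * MvPolynomial.X (Fin.natAdd q j))

theorem hyP_deg {q c K : ℕ} (hK : 1 ≤ K) (φ : Fin (c + 1) → ℝ) (G : MvPolynomial (Fin q) ℝ)
    (hG : G.totalDegree ≤ K) (i : Fin (c + 1)) : (hyP φ G i).totalDegree ≤ K := by
  unfold hyP
  refine (totalDegree_mul _ _).trans ?_
  rw [totalDegree_C, zero_add]
  refine (totalDegree_sub _ _).trans (max_le ((totalDegree_rename_le _ _).trans hG) ?_)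
  refine totalDegree_finsetSum_le fun j _ => ?_
  refine (totalDegree_mul _ _).trans ?_
  rw [totalDegree_C, zero_add, totalDegree_X]
  exact hK

theorem hyP_coeff {q c : ℕ} {B : ℝ} (φ : Fin (c + 1) → ℝ) (hφ : ∀ j, |φ j| ≤ 1)
    (G : MvPolynomial (Fin q) ℝ) (hG : ∀ m, |coeff m G| ≤ B) (i : Fin (c + 1))
    (m : Fin (q + c) →₀ ℕ) : |coeff m (hyP φ G i)| ≤ B + c := by
  classical
  have hB : 0 ≤ B := (abs_nonneg _).trans (hG 0)
  have h1 : |coeff m (rename (Fin.castAdd c) G)| ≤ B := by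
    by_cases h : ∃ u : Fin q →₀ ℕ, u.mapDomain (Fin.castAdd c) = m
    · obtain ⟨u, rfl⟩ := h
      rw [coeff_rename_mapDomain _ (Fin.castAdd_injective q c)]
      exact hG u
    · rw [coeff_rename_eq_zero _ _ _ (fun u hu => absurd ⟨u, hu⟩ h), abs_zero]
      exact hB
  have h2 : |coeff m (∑ j : Fin c, C (φ (i.succAbove j)) *
      MvPolynomial.X (R := ℝ) (Fin.natAdd q j))| ≤ (c : ℝ) := by
    rw [coeff_sum]
    refine (Finset.abs_sum_le_sum_abs _ _).trans ?_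
    have h3 : ∀ j ∈ (Finset.univ : Finset (Fin c)), |coeff m (C (φ (i.succAbove j)) *
        MvPolynomial.X (R := ℝ) (Fin.natAdd q j))| ≤ 1 := by
      intro j _
      rw [coeff_C_mul, abs_mul, coeff_X]
      split_ifs
      · simpa using hφ _
      · simp
    refine (Finset.sum_le_sum h3).trans ?_
    simp
  unfold hyP
  rw [coeff_C_mul, coeff_sub, abs_mul]
  have h4 : |coeff m (rename (Fin.castAdd c) G) -
    coeff m (∑ j : Fin c, C (φ (i.succAbove j)) * MvPolynomial.X (R := ℝ) (Fin.natAdd q j))| ≤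
      |coeff m (rename (Fin.castAdd c) G)| + |coeff m (∑ j : Fin c, C (φ (i.succAbove j)) *
        MvPolynomial.X (R := ℝ) (Fin.natAdd q j))| := by
    rw [sub_eq_add_neg]
    refine (abs_add_le _ _).trans ?_
    rw [abs_neg]
  have h5 : |coeff m (rename (Fin.castAdd c) G) -
    coeff m (∑ j : Fin c, C (φ (i.succAbove j)) * MvPolynomial.X (R := ℝ) (Fin.natAdd q j))| ≤
      B + c := h4.trans (add_le_add h1 h2)
  calc |φ i| * _ ≤ 1 * (B + c) := mul_le_mul (hφ i) h5 (abs_nonneg _) zero_le_one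
    _ = B + c := one_mul _

theorem hyP_eval {q c : ℕ} (φ : Fin (c + 1) → ℝ) (G : MvPolynomial (Fin q) ℝ)
    (i : Fin (c + 1)) (Y : Fin q → ℝ) (u : Fin (c + 1) → ℝ) :
    eval (Fin.append Y (fun j => u (i.succAbove j))) (hyP φ G i) =
      φ i * (eval Y G - ∑ j : Fin c, φ (i.succAbove j) * u (i.succAbove j)) := by
  unfold hyP
  rw [map_mul, eval_C, map_sub, eval_rename, map_sum]
  have e : (Fin.append Y (fun j => u (i.succAbove j))) ∘ Fin.castAdd c = Y := by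
    funext v
    simp [Fin.append_left]
  rw [e]
  congr 2
  refine Finset.sum_congr rfl fun j _ => ?_
  rw [map_mul, eval_C, eval_X, Fin.append_right]

theorem hyP_dn {q c : ℕ} (φ : Fin (c + 1) → ℝ) (G : MvPolynomial (Fin q) ℝ)
    (i : Fin (c + 1)) (j : Fin c) (y : Fin (q + c) → ℝ) :
    eval y (pderiv (Fin.natAdd q j) (hyP φ G i)) = -(φ i * φ (i.succAbove j)) := by
  classical
  unfold hyP
  have h1 : pderiv (Fin.natAdd q j) (rename (Fin.castAdd c) G) = 0 := by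
    refine pderiv_eq_zero_of_notMem_vars fun h => ?_
    obtain ⟨v, -, hv⟩ := mem_vars_rename _ _ h
    have h2 := congrArg Fin.val hv
    simp only [Fin.val_castAdd, Fin.val_natAdd] at h2
    have := v.isLt
    omega
  rw [pderiv_C_mul, map_sub, h1, map_sum]
  have h2 : ∀ k ∈ (Finset.univ : Finset (Fin c)), pderiv (Fin.natAdd q j)
      (C (φ (i.succAbove k)) * MvPolynomial.X (R := ℝ) (Fin.natAdd q k)) =
        if k = j then C (φ (i.succAbove k)) else 0 := by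
    intro k _
    rw [pderiv_C_mul, pderiv_X]
    by_cases h : k = j
    · subst h
      simp
    · have h3 : (Fin.natAdd q k : Fin (q + c)) ≠ Fin.natAdd q j := by
        intro h4
        have h5 := congrArg Fin.val h4
        simp only [Fin.val_natAdd] at h5
        exact h (Fin.ext (by omega))
      rw [if_neg h, Pi.single_eq_of_ne h3]
      simp
  rw [Finset.sum_congr rfl h2, Finset.sum_ite_eq' Finset.univ j, if_pos (Finset.mem_univ _)]
  simp

theorem hyP_dY {q c : ℕ} (φ : Fin (c + 1) → ℝ) (G : MvPolynomial (Fin q) ℝ)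
    (i : Fin (c + 1)) (v : Fin q) (Y : Fin q → ℝ) (w : Fin c → ℝ) :
    eval (Fin.append Y w) (pderiv (Fin.castAdd c v) (hyP φ G i)) =
      φ i * eval Y (pderiv v G) := by
  classical
  unfold hyP
  have h2 : ∀ k ∈ (Finset.univ : Finset (Fin c)), pderiv (Fin.castAdd c v)
      (C (φ (i.succAbove k)) * MvPolynomial.X (R := ℝ) (Fin.natAdd q k)) = 0 := by
    intro k _
    rw [pderiv_C_mul, pderiv_X]
    have h3 : (Fin.natAdd q k : Fin (q + c)) ≠ Fin.castAdd c v := by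
      intro h4
      have h5 := congrArg Fin.val h4
      simp only [Fin.val_castAdd, Fin.val_natAdd] at h5
      have := v.isLt
      omega
    rw [Pi.single_eq_of_ne h3]
    simp
  rw [pderiv_C_mul, map_sub, map_sum, Finset.sum_eq_zero h2, sub_zero,
    pderiv_rename (Fin.castAdd_injective q c), map_mul, eval_C, eval_rename]
  have e : (Fin.append Y w) ∘ Fin.castAdd c = Y := by
    funext k
    simp [Fin.append_left]
  rw [e]

/-- The digits of the point. -/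
noncomputable def pu {Ω : Type} {q c : ℕ} (X : ℕ) (Y : Ω → Fin q → ℝ)
    (u : Ω → Fin (c + 1) → ℝ) (ω : Ω) : (Fin q → ℤ) × (Fin (c + 1) → ℤ) :=
  (dv X (Y ω), dv X (u ω))

section

variable {Ω 𝒞 Λ : Type} [Fintype Ω] {p : Ω → ℝ} (hp : ∀ ω, 0 ≤ p ω) (h1 : ∑ ω, p ω = 1)
    {q c K R X : ℕ} (hR : 1 ≤ R) (hK : 1 ≤ K) {B e : ℝ} (Cx : Ω → 𝒞) (L : Ω → Λ)
    (φ : 𝒞 → Λ → Fin (c + 1) → ℝ) (hφ : ∀ s l j, |φ s l j| ≤ 1)
    (ι : 𝒞 → Λ → Fin (c + 1)) (hι : ∀ s l, |φ s l (ι s l)| = 1)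
    (G : 𝒞 → Λ → MvPolynomial (Fin q) ℝ) (hdeg : ∀ s l, (G s l).totalDegree ≤ K)
    (hB : ∀ ω, 0 < p ω → ∀ m, |coeff m (G (Cx ω) (L ω))| ≤ B)
    (Y : Ω → Fin q → ℝ) (u : Ω → Fin (c + 1) → ℝ)
    (hY : ∀ ω, 0 < p ω → ∀ i, |Y ω i| ≤ R) (hu : ∀ ω, 0 < p ω → ∀ i, |u ω i| ≤ R)
    (hn : ∀ ω, 0 < p ω → |∑ j, φ (Cx ω) (L ω) j * u ω j - eval (Y ω) (G (Cx ω) (L ω))| ≤
      e * ((2 : ℝ) ^ X)⁻¹)

include hp h1 hR hK hφ hι hdeg hB hY hu hn

/-- **LEMMA F for hypersurface sheets**, with the index of the largest entry of the covector in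
the context. -/
theorem hyp_popi (hX : 1 ≤ X) {ε c' a : ℝ} (ha : 0 < a)
    (hfull : (((q + c : ℕ) : ℝ) - ε) * X * Real.log 2 ≤
      CH p (pu X Y u) (fun ω => (L ω, Cx ω)))
    (hnon : CH p (pu X Y u) Cx ≤ (((q + c : ℕ) : ℝ) + 1 - c') * X * Real.log 2) :
    ∃ Φ : ((Fin q → ℤ) × (Fin (c + 1) → ℤ)) × (𝒞 × Fin (c + 1)) → Fin (c + 1) → ℝ,
    ∃ Γ : ((Fin q → ℤ) × (Fin (c + 1) → ℤ)) × (𝒞 × Fin (c + 1)) → Fin q → ℝ,
      c' - 2 * ε - a -
        (Real.log (X + 1) + Real.log (cF (q + c) K R (kF (q + c) K R (B + c) e))) /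
          (X * Real.log 2) ≤
      PrE p (fun ω => (∀ j, |φ (Cx ω) (L ω) (ι (Cx ω) (L ω)) * φ (Cx ω) (L ω) j -
          Φ (pu X Y u ω, (Cx ω, ι (Cx ω) (L ω))) j| ≤ 2 * (2 : ℝ) ^ (-(a * X)) +
          ((q + c : ℕ) : ℝ) * ((K + 1) ^ (q + c + 1) * (((K + 1) * (B + c)) * (R + 1) ^ K)) *
            ((2 : ℝ) ^ X)⁻¹) ∧
        ∀ v, |φ (Cx ω) (L ω) (ι (Cx ω) (L ω)) * eval (Y ω) (pderiv v (G (Cx ω) (L ω))) -
          Γ (pu X Y u ω, (Cx ω, ι (Cx ω) (L ω))) v| ≤ 2 * (2 : ℝ) ^ (-(a * X)) +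
          ((q + c : ℕ) : ℝ) * ((K + 1) ^ (q + c + 1) * (((K + 1) * (B + c)) * (R + 1) ^ K)) *
            ((2 : ℝ) ^ X)⁻¹) := by
  classical
  obtain ⟨i, hi⟩ : ∃ i : Ω → Fin (c + 1), ∀ ω, i ω = ι (Cx ω) (L ω) := ⟨_, fun _ => rfl⟩
  obtain ⟨y, hy⟩ : ∃ y : Ω → Fin (q + c) → ℝ, ∀ ω, y ω =
      Fin.append (Y ω) (fun j => u ω ((i ω).succAbove j)) := ⟨_, fun _ => rfl⟩
  obtain ⟨n, hndef⟩ : ∃ n : Ω → ℝ, ∀ ω, n ω = u ω (i ω) := ⟨_, fun _ => rfl⟩
  -- the coordinates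
  have hyl : ∀ ω v, y ω (Fin.castAdd c v) = Y ω v := by
    intro ω v
    rw [hy, Fin.append_left]
  have hyr : ∀ ω j, y ω (Fin.natAdd q j) = u ω ((i ω).succAbove j) := by
    intro ω j
    rw [hy, Fin.append_right]
  have hpt : ∀ ω ω', pt X y n ω = pt X y n ω' → i ω = i ω' → pu X Y u ω = pu X Y u ω' := by
    intro ω ω' h h'
    unfold pt at h
    simp only [Prod.mk.injEq] at h
    unfold pu
    refine Prod.ext ?_ ?_
    · funext v
      have h2 := congrFun h.1 (Fin.castAdd c v)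
      unfold dv at h2 ⊢
      rwa [hyl, hyl] at h2
    · funext k
      unfold dv
      rcases Fin.eq_self_or_eq_succAbove (i ω) k with h3 | ⟨j, h3⟩
      · have h4 := h.2
        rw [hndef, hndef, ← h'] at h4
        rw [h3]
        exact h4
      · have h2 := congrFun h.1 (Fin.natAdd q j)
        unfold dv at h2
        rw [hyr, hyr, ← h'] at h2
        rw [h3]
        exact h2
  have hpu : ∀ ω ω', pu X Y u ω = pu X Y u ω' → i ω = i ω' → pt X y n ω = pt X y n ω' := by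
    intro ω ω' h h'
    unfold pu at h
    simp only [Prod.mk.injEq] at h
    unfold pt
    refine Prod.ext ?_ ?_
    · funext v
      refine Fin.addCases (fun v => ?_) (fun j => ?_) v
      · have h2 := congrFun h.1 v
        unfold dv at h2
        show ⌊(2 : ℝ) ^ X * y ω (Fin.castAdd c v)⌋ = ⌊(2 : ℝ) ^ X * y ω' (Fin.castAdd c v)⌋
        rwa [hyl, hyl]
      · have h2 := congrFun h.2 ((i ω).succAbove j)
        unfold dv at h2
        show ⌊(2 : ℝ) ^ X * y ω (Fin.natAdd q j)⌋ = ⌊(2 : ℝ) ^ X * y ω' (Fin.natAdd q j)⌋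
        rwa [hyr, hyr, ← h']
    · have h2 := congrFun h.2 (i ω)
      unfold dv at h2
      show ⌊(2 : ℝ) ^ X * n ω⌋ = ⌊(2 : ℝ) ^ X * n ω'⌋
      rw [hndef, hndef, ← h']
      exact h2
  have hf2 : CH p (pt X y n) (fun ω => (L ω, (Cx ω, i ω))) =
      CH p (pu X Y u) (fun ω => (L ω, Cx ω)) := by
    have e1 : H p (fun ω => (pt X y n ω, (L ω, (Cx ω, i ω)))) =
        H p (fun ω => (pu X Y u ω, (L ω, Cx ω))) := by
      refine H_congr hp ?_ ?_
      · intro ω ω' _ _ h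
        simp only [Prod.mk.injEq] at h ⊢
        have h' : i ω = i ω' := by rw [hi, hi, h.2.1, h.2.2]
        exact ⟨hpu ω ω' h.1 h', h.2.1, h.2.2, h'⟩
      · intro ω ω' _ _ h
        simp only [Prod.mk.injEq] at h ⊢
        exact ⟨hpt ω ω' h.1 h.2.2.2, h.2.1, h.2.2.1⟩
    have e2 : H p (fun ω => (L ω, (Cx ω, i ω))) = H p (fun ω => (L ω, Cx ω)) := by
      refine H_congr hp ?_ ?_
      · intro ω ω' _ _ h
        simp only [Prod.mk.injEq] at h ⊢
        exact ⟨h.1, h.2, by rw [hi, hi, h.1, h.2]⟩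
      · intro ω ω' _ _ h
        simp only [Prod.mk.injEq] at h ⊢
        exact ⟨h.1, h.2.1⟩
    unfold CH
    rw [e1, e2]
  have hn2 : CH p (pt X y n) (fun ω => (Cx ω, i ω)) ≤ CH p (pu X Y u) Cx := by
    have e1 : CH p (pt X y n) (fun ω => (Cx ω, i ω)) ≤
        CH p (pu X Y u) (fun ω => (Cx ω, i ω)) := by
      have e2 := CH_le_add hp (pt X y n) (pu X Y u) (fun ω => (Cx ω, i ω))
      have e3 : CH p (pt X y n) (fun ω => (pu X Y u ω, (Cx ω, i ω))) = 0 := by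
        refine CH_eq_zero hp fun ω ω' _ _ h => ?_
        simp only [Prod.mk.injEq] at h
        exact hpu ω ω' h.1 h.2.2
      linarith
    refine e1.trans (CH_mono_cond hp fun ω ω' _ _ h => ?_)
    exact (Prod.ext_iff.1 h).1
  -- the sheet over the other coordinates
  have hsum : ∀ ω, ∑ j, φ (Cx ω) (L ω) j * u ω j = φ (Cx ω) (L ω) (i ω) * u ω (i ω) +
      ∑ j : Fin c, φ (Cx ω) (L ω) ((i ω).succAbove j) * u ω ((i ω).succAbove j) :=
    fun ω => Fin.sum_univ_succAbove _ (i ω)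
  have hsq : ∀ ω, φ (Cx ω) (L ω) (i ω) * φ (Cx ω) (L ω) (i ω) = 1 := by
    intro ω
    have h2 := hι (Cx ω) (L ω)
    rw [← hi] at h2
    rw [← abs_mul_abs_self, h2, mul_one]
  have hn3 : ∀ ω, 0 < p ω → |n ω - eval (y ω) (hyP (φ (Cx ω) (L ω)) (G (Cx ω) (L ω)) (i ω))| ≤
      e * ((2 : ℝ) ^ X)⁻¹ := by
    intro ω hω
    have h2 := hn ω hω
    rw [hsum] at h2
    rw [hy, hyP_eval, hndef]
    have h3 : u ω (i ω) - φ (Cx ω) (L ω) (i ω) * (eval (Y ω) (G (Cx ω) (L ω)) -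
        ∑ j : Fin c, φ (Cx ω) (L ω) ((i ω).succAbove j) * u ω ((i ω).succAbove j)) =
        φ (Cx ω) (L ω) (i ω) * (φ (Cx ω) (L ω) (i ω) * u ω (i ω) +
          ∑ j : Fin c, φ (Cx ω) (L ω) ((i ω).succAbove j) * u ω ((i ω).succAbove j) -
            eval (Y ω) (G (Cx ω) (L ω))) := by
      linear_combination (-(u ω (i ω))) * hsq ω
    rw [h3, abs_mul]
    have h4 := hφ (Cx ω) (L ω) (i ω)
    calc _ ≤ 1 * _ := mul_le_mul_of_nonneg_right h4 (abs_nonneg _)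
      _ ≤ _ := by rwa [one_mul]
  have hyb : ∀ ω, 0 < p ω → ∀ v, |y ω v| ≤ R := by
    intro ω hω v
    refine Fin.addCases (fun v => ?_) (fun j => ?_) v
    · rw [hyl]
      exact hY ω hω v
    · rw [hyr]
      exact hu ω hω _
  obtain ⟨F, hF⟩ := lemF_pop hp h1 (d := q + c) (K := K) (X := X) hR (B := B + c) (e := e)
    (fun ω => (Cx ω, i ω)) L
    (fun s l => hyP (φ s.1 l) (G s.1 l) s.2)
    (fun s l => hyP_deg hK _ _ (hdeg _ _) _)
    (fun ω hω => hyP_coeff _ (hφ _ _) _ (hB ω hω) _) y n hyb hn3 hX ha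
    (by rw [hf2]; exact hfull) (hn2.trans hnon)
  obtain ⟨tr, htr⟩ : ∃ tr : ((Fin q → ℤ) × (Fin (c + 1) → ℤ)) × (𝒞 × Fin (c + 1)) →
      ((Fin (q + c) → ℤ) × ℤ) × (𝒞 × Fin (c + 1)), ∀ z, tr z =
        ((Fin.append z.1.1 (fun j => z.1.2 (z.2.2.succAbove j)), z.1.2 z.2.2), z.2) :=
    ⟨_, fun _ => rfl⟩
  have htr2 : ∀ ω, tr (pu X Y u ω, (Cx ω, ι (Cx ω) (L ω))) = (pt X y n ω, (Cx ω, i ω)) := by
    intro ω
    rw [htr, ← hi]
    refine Prod.ext (Prod.ext ?_ ?_) rfl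
    · funext v
      refine Fin.addCases (fun v => ?_) (fun j => ?_) v
      · show Fin.append (dv X (Y ω)) (fun j => dv X (u ω) ((i ω).succAbove j))
          (Fin.castAdd c v) = ⌊(2 : ℝ) ^ X * y ω (Fin.castAdd c v)⌋
        rw [Fin.append_left]
        show ⌊(2 : ℝ) ^ X * Y ω v⌋ = ⌊(2 : ℝ) ^ X * y ω (Fin.castAdd c v)⌋
        rw [hyl]
      · show Fin.append (dv X (Y ω)) (fun j => dv X (u ω) ((i ω).succAbove j))
          (Fin.natAdd q j) = ⌊(2 : ℝ) ^ X * y ω (Fin.natAdd q j)⌋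
        rw [Fin.append_right]
        show ⌊(2 : ℝ) ^ X * u ω ((i ω).succAbove j)⌋ =
          ⌊(2 : ℝ) ^ X * y ω (Fin.natAdd q j)⌋
        rw [hyr]
    · show ⌊(2 : ℝ) ^ X * u ω (i ω)⌋ = ⌊(2 : ℝ) ^ X * n ω⌋
      rw [hndef]
  refine ⟨fun z => Fin.insertNth (α := fun _ => ℝ) z.2.2 1
      (fun j => -F (tr z) (Fin.natAdd q j)),
    fun z v => F (tr z) (Fin.castAdd c v), hF.trans (PrE_mono hp ?_)⟩
  intro ω hω h2
  refine ⟨fun k => ?_, fun v => ?_⟩
  · beta_reduce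
    rw [htr2, ← hi]
    rcases Fin.eq_self_or_eq_succAbove (i ω) k with h3 | ⟨j, h3⟩
    · rw [h3, Fin.insertNth_apply_same, hsq, sub_self, abs_zero]
      have hB0 : 0 ≤ B := (abs_nonneg _).trans (hB ω hω 0)
      positivity
    · rw [h3, Fin.insertNth_apply_succAbove]
      have h4 := h2 (Fin.natAdd q j)
      beta_reduce at h4
      rw [hyP_dn] at h4
      rw [← abs_neg]
      refine le_trans (le_of_eq ?_) h4
      congr 1
      ring
  · beta_reduce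
    rw [htr2, ← hi]
    have h3 := h2 (Fin.castAdd c v)
    beta_reduce at h3
    rw [hy, hyP_dY] at h3
    exact h3

/-- **LEMMA F for hypersurface sheets.**  The covector and the gradient of `G`, up to a common
sign, are functions of the point and of the context, to `a X` digits, on an event of probability at
least `β / (c + 1)`. -/
theorem hyp_pop (hX : 1 ≤ X) {ε c' a : ℝ} (ha : 0 < a)
    (hfull : (((q + c : ℕ) : ℝ) - ε) * X * Real.log 2 ≤
      CH p (pu X Y u) (fun ω => (L ω, Cx ω)))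
    (hnon : CH p (pu X Y u) Cx ≤ (((q + c : ℕ) : ℝ) + 1 - c') * X * Real.log 2) :
    ∃ Φ : ((Fin q → ℤ) × (Fin (c + 1) → ℤ)) × 𝒞 → Fin (c + 1) → ℝ,
    ∃ Γ : ((Fin q → ℤ) × (Fin (c + 1) → ℤ)) × 𝒞 → Fin q → ℝ,
      c' - 2 * ε - a -
        (Real.log (X + 1) + Real.log (cF (q + c) K R (kF (q + c) K R (B + c) e))) /
          (X * Real.log 2) ≤
      (c + 1) * PrE p (fun ω => ∃ s : ℝ, |s| = 1 ∧ (∀ j, |s * φ (Cx ω) (L ω) j -
          Φ (pu X Y u ω, Cx ω) j| ≤ 2 * (2 : ℝ) ^ (-(a * X)) +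
          ((q + c : ℕ) : ℝ) * ((K + 1) ^ (q + c + 1) * (((K + 1) * (B + c)) * (R + 1) ^ K)) *
            ((2 : ℝ) ^ X)⁻¹) ∧
        ∀ v, |s * eval (Y ω) (pderiv v (G (Cx ω) (L ω))) - Γ (pu X Y u ω, Cx ω) v| ≤
          2 * (2 : ℝ) ^ (-(a * X)) +
          ((q + c : ℕ) : ℝ) * ((K + 1) ^ (q + c + 1) * (((K + 1) * (B + c)) * (R + 1) ^ K)) *
            ((2 : ℝ) ^ X)⁻¹) := by
  obtain ⟨Φ, Γ, h2⟩ := hyp_popi hp h1 hR hK Cx L φ hφ ι hι G hdeg hB Y u hY hu hn hX ha hfull hnon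
  obtain ⟨g, hg⟩ := pop_idx p (fun ω => (pu X Y u ω, Cx ω)) (fun ω => ι (Cx ω) (L ω))
    (fun ω => (∀ j, |φ (Cx ω) (L ω) (ι (Cx ω) (L ω)) * φ (Cx ω) (L ω) j -
          Φ (pu X Y u ω, (Cx ω, ι (Cx ω) (L ω))) j| ≤ 2 * (2 : ℝ) ^ (-(a * X)) +
          ((q + c : ℕ) : ℝ) * ((K + 1) ^ (q + c + 1) * (((K + 1) * (B + c)) * (R + 1) ^ K)) *
            ((2 : ℝ) ^ X)⁻¹) ∧
        ∀ v, |φ (Cx ω) (L ω) (ι (Cx ω) (L ω)) * eval (Y ω) (pderiv v (G (Cx ω) (L ω))) -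
          Γ (pu X Y u ω, (Cx ω, ι (Cx ω) (L ω))) v| ≤ 2 * (2 : ℝ) ^ (-(a * X)) +
          ((q + c : ℕ) : ℝ) * ((K + 1) ^ (q + c + 1) * (((K + 1) * (B + c)) * (R + 1) ^ K)) *
            ((2 : ℝ) ^ X)⁻¹)
  refine ⟨fun z => Φ (z.1, (z.2, g z)), fun z => Γ (z.1, (z.2, g z)), h2.trans (hg.trans ?_)⟩
  refine mul_le_mul_of_nonneg_left (PrE_mono hp ?_) (by positivity)
  rintro ω hω ⟨⟨h3, h4⟩, h5⟩
  rw [h5] at h3 h4
  refine ⟨_, ?_, h3, h4⟩
  rw [← h5]
  exact hι _ _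

end

end Pool.LF
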