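import Pool.Agent.H42.GN.Zz

/-!
# LEMMA F (K_GEN 4.2), entropy part

Two conditional copies `L₁, L₂` of the leaf given the common point `x`:
`2 H(x|L,C) - H(x|C) ≤ H(x|L₁,L₂,C)`.
-/

set_option autoImplicit false

namespace Pool.LF

open Finset Real
open Pool.Agent.H49.Ent Pool.Agent.H32.Dense

variable {Ω : Type} [Fintype Ω] {𝒞 Λ S T G : Type}

/-- The law of two copies of `ω`, conditionally independent given `Z`. -/
noncomputable def cp (p : Ω → ℝ) (Z : Ω → T) : Ω × Ω → ℝ := glue p p Z Z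

theorem cp_nonneg {p : Ω → ℝ} (hp : ∀ ω, 0 ≤ p ω) (Z : Ω → T) (w : Ω × Ω) : 0 ≤ cp p Z w :=
  glue_nonneg hp hp w

theorem cp_pos {p : Ω → ℝ} (hp : ∀ ω, 0 ≤ p ω) {Z : Ω → T} {w : Ω × Ω} (h : 0 < cp p Z w) :
    0 < p w.1 ∧ 0 < p w.2 ∧ Z w.1 = Z w.2 :=
  (glue_pos_iff hp hp w).1 h

theorem cp_sum {p : Ω → ℝ} (hp : ∀ ω, 0 ≤ p ω) (h1 : ∑ ω, p ω = 1) (Z : Ω → T) :
    ∑ w, cp p Z w = 1 := by
  unfold cp
  rw [sum_glue hp (fun _ => rfl), h1]

/-- **Entropy form.**  The point seen from two copies of the leaf. -/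
theorem two_copies {p : Ω → ℝ} (hp : ∀ ω, 0 ≤ p ω) (C : Ω → 𝒞) (L : Ω → Λ) (x : Ω → S) :
    2 * CH p x (fun ω => (L ω, C ω)) - CH p x C ≤
      CH (cp p (fun ω => (x ω, C ω))) (fun w => x w.1) (fun w => ((L w.1, L w.2), C w.1)) := by
  obtain ⟨Z, hZ⟩ : ∃ Z : Ω → S × 𝒞, Z = fun ω => (x ω, C ω) := ⟨_, rfl⟩
  obtain ⟨q, hq⟩ : ∃ q : Ω × Ω → ℝ, q = cp p (fun ω => (x ω, C ω)) := ⟨_, rfl⟩
  rw [← hq]
  have hq0 : ∀ w, 0 ≤ q w := by
    intro w
    rw [hq]
    exact cp_nonneg hp _ w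
  have hqp : ∀ w, 0 < q w → x w.1 = x w.2 ∧ C w.1 = C w.2 := by
    intro w hw
    rw [hq] at hw
    have := (cp_pos hp hw).2.2
    simp only [Prod.mk.injEq] at this
    exact this
  have e1 : H q (fun w => ((L w.1, (x w.1, C w.1)), (L w.2, (x w.2, C w.2)))) =
      H p (fun ω => (L ω, (x ω, C ω))) + H p (fun ω => (L ω, (x ω, C ω))) -
        H p (fun ω => (x ω, C ω)) := by
    rw [hq]
    exact H_glue_pair hp hp (fun _ => rfl) (X := fun ω => (L ω, (x ω, C ω)))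
      (Y := fun ω => (L ω, (x ω, C ω)))
      (fun ω ω' _ _ h => (Prod.ext_iff.1 h).2) (fun ω ω' _ _ h => (Prod.ext_iff.1 h).2)
  have e2 : H q (fun w => (x w.1, ((L w.1, L w.2), C w.1))) =
      H q (fun w => ((L w.1, (x w.1, C w.1)), (L w.2, (x w.2, C w.2)))) := by
    refine H_congr hq0 ?_ ?_
    · intro w w' hw hw' h
      simp only [Prod.mk.injEq] at h ⊢
      tauto
    · intro w w' hw hw' h
      simp only [Prod.mk.injEq] at h ⊢
      have a1 := hqp w hw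
      have a2 := hqp w' hw'
      obtain ⟨h1, ⟨h2, h3⟩, h4⟩ := h
      refine ⟨⟨h2, h1, h4⟩, h3, ?_, ?_⟩
      · rw [← a1.1, ← a2.1, h1]
      · rw [← a1.2, ← a2.2, h4]
  have e3 : H q (fun w => ((L w.1, L w.2), C w.1)) ≤
      H p (fun ω => (L ω, C ω)) + H p (fun ω => (L ω, C ω)) - H p C := by
    have h1 := submod hq0 (X := fun w => (L w.1, C w.1)) (Y := fun w => (L w.2, C w.2))
      (Z := fun w => C w.1) (W := fun w => ((L w.1, L w.2), C w.1))
      (fun w w' _ _ h => (Prod.ext_iff.1 h).2)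
      (fun w w' hw hw' h => by
        have a1 := hqp w hw
        have a2 := hqp w' hw'
        simp only [Prod.mk.injEq] at h
        show C w.1 = C w'.1
        rw [a1.2, a2.2, h.2])
      (fun w w' _ _ h => by
        simp only [Prod.mk.injEq] at h ⊢
        tauto)
    have h2 : H q (fun w => (L w.1, C w.1)) = H p (fun ω => (L ω, C ω)) := by
      rw [hq]
      exact H_glue_fst hp (fun _ => rfl) (fun ω => (L ω, C ω))
    have h3 : H q (fun w => (L w.2, C w.2)) = H p (fun ω => (L ω, C ω)) := by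
      rw [hq]
      exact H_glue_snd hp (fun _ => rfl) (fun ω => (L ω, C ω))
    have h4 : H q (fun w => C w.1) = H p C := by
      rw [hq]
      exact H_glue_fst hp (fun _ => rfl) C
    rw [h2, h3, h4] at h1
    linarith
  have e4 : H p (fun ω => (x ω, (L ω, C ω))) = H p (fun ω => (L ω, (x ω, C ω))) := by
    refine H_congr hp ?_ ?_ <;>
    · intro ω ω' _ _ h
      simp only [Prod.mk.injEq] at h ⊢
      tauto
  unfold CH
  rw [e2, e1, e4]
  linarith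

open Classical in
/-- The probability of an event. -/
noncomputable def PrE {Ω : Type} [Fintype Ω] (p : Ω → ℝ) (A : Ω → Prop) : ℝ :=
  ∑ ω, if A ω then p ω else 0

theorem PrE_mono {Ω : Type} [Fintype Ω] {p : Ω → ℝ} (hp : ∀ ω, 0 ≤ p ω) {A A' : Ω → Prop}
    (h : ∀ ω, 0 < p ω → A ω → A' ω) : PrE p A ≤ PrE p A' := by
  classical
  unfold PrE
  refine Finset.sum_le_sum fun ω _ => ?_
  rcases (hp ω).eq_or_lt with h0 | h0
  · rw [← h0]
    simp
  · by_cases hA : A ω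
    · rw [if_pos hA, if_pos (h ω h0 hA)]
    · rw [if_neg hA]
      split_ifs
      · exact h0.le
      · exact le_rfl

theorem PrE_eq {Ω : Type} [Fintype Ω] (p : Ω → ℝ) (A : Ω → Prop) [DecidablePred A] :
    PrE p A = ∑ ω, if A ω then p ω else 0 := by
  unfold PrE
  exact Finset.sum_congr rfl fun ω _ => by congr

open Classical in
theorem PrE_split (p : Ω → ℝ) (Z : Ω → T) (A : Ω → Prop) :
    PrE p A = ∑ z ∈ univ.image Z, PrE p (fun ω => Z ω = z ∧ A ω) := by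
  have e : ∀ z ∈ univ.image Z, PrE p (fun ω => Z ω = z ∧ A ω) =
      ∑ ω, if Z ω = z then (if A ω then p ω else 0) else 0 := by
    intro z _
    rw [PrE_eq]
    refine Finset.sum_congr rfl fun ω _ => ?_
    by_cases h1 : Z ω = z <;> by_cases h2 : A ω <;> simp [h1, h2]
  rw [Finset.sum_congr rfl e, Finset.sum_comm, PrE_eq]
  refine Finset.sum_congr rfl fun ω _ => ?_
  rw [Finset.sum_ite_eq (univ.image Z) (Z ω), if_pos (Finset.mem_image_of_mem Z (mem_univ ω))]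

/-- **Popular value.**  If two conditional copies of the leaf given `Z` are in the relation `E`
with probability at least `β`, some choice of a sample `ω₀(Z)` is in the relation `E` with the
sample with probability at least `β`. -/
theorem popular {p : Ω → ℝ} (hp : ∀ ω, 0 ≤ p ω) (Z : Ω → T)
    (E : Ω → Ω → Prop) {β : ℝ}
    (h : β ≤ PrE (cp p Z) (fun w => E w.1 w.2)) :
    ∃ g : T → Option Ω, (∀ ω, 0 < p ω → ∃ ω₀, g (Z ω) = some ω₀ ∧ 0 < p ω₀ ∧ Z ω₀ = Z ω) ∧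
      β ≤ PrE p (fun ω => ∃ ω₀, g (Z ω) = some ω₀ ∧ E ω ω₀) := by
  classical
  -- the score of a candidate
  obtain ⟨sc, hsc⟩ : ∃ sc : T → Ω → ℝ, ∀ z ω₀, sc z ω₀ =
      PrE p (fun ω => Z ω = z ∧ E ω ω₀) := ⟨_, fun _ _ => rfl⟩
  have hne : ∀ ω, 0 < p ω → (Finset.univ.filter fun ω' => 0 < p ω' ∧ Z ω' = Z ω).Nonempty :=
    fun ω hω => ⟨ω, by simp [hω]⟩
  obtain ⟨g, hg⟩ : ∃ g : T → Option Ω, ∀ ω, 0 < p ω → ∃ ω₀, g (Z ω) = some ω₀ ∧ 0 < p ω₀ ∧
      Z ω₀ = Z ω ∧ ∀ ω', 0 < p ω' → Z ω' = Z ω → sc (Z ω) ω' ≤ sc (Z ω) ω₀ := by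
    have hall : ∀ z : T, ∃ o : Option Ω, (∃ ω, 0 < p ω ∧ Z ω = z) → ∃ ω₀, o = some ω₀ ∧
        0 < p ω₀ ∧ Z ω₀ = z ∧ ∀ ω', 0 < p ω' → Z ω' = z → sc z ω' ≤ sc z ω₀ := by
      intro z
      by_cases h : ∃ ω, 0 < p ω ∧ Z ω = z
      · obtain ⟨ω, hω, rfl⟩ := h
        obtain ⟨ω₀, h1, h2⟩ := Finset.exists_max_image _ (sc (Z ω)) (hne ω hω)
        simp only [Finset.mem_filter, Finset.mem_univ, true_and] at h1 h2
        exact ⟨some ω₀, fun _ => ⟨ω₀, rfl, h1.1, h1.2, fun ω' a b => h2 ω' ⟨a, b⟩⟩⟩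
      · exact ⟨none, fun h' => absurd h' h⟩
    choose g hg using hall
    exact ⟨g, fun ω hω => hg (Z ω) ⟨ω, hω, rfl⟩⟩
  refine ⟨g, fun ω hω => ?_, ?_⟩
  · obtain ⟨ω₀, h1, h2, h3, -⟩ := hg ω hω
    exact ⟨ω₀, h1, h2, h3⟩
  refine h.trans ?_
  obtain ⟨s, hs⟩ : ∃ s : T → ℝ, ∀ z, s z = (g z).elim 0 (sc z) := ⟨_, fun _ => rfl⟩
  have e1 : PrE (cp p Z) (fun w => E w.1 w.2) =
      ∑ ω₂, p ω₂ * sc (Z ω₂) ω₂ / law p Z (Z ω₂) := by
    rw [PrE_eq, Fintype.sum_prod_type, Finset.sum_comm]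
    refine Finset.sum_congr rfl fun ω₂ _ => ?_
    rw [hsc, PrE_eq, Finset.mul_sum, Finset.sum_div]
    refine Finset.sum_congr rfl fun ω₁ _ => ?_
    unfold cp glue
    dsimp only
    by_cases hE : E ω₁ ω₂
    · by_cases hz : Z ω₁ = Z ω₂
      · rw [if_pos hE, if_pos hz, if_pos ⟨hz, hE⟩, hz]
        ring
      · rw [if_pos hE, if_neg hz, if_neg (fun h => hz h.1)]
        simp
    · rw [if_neg hE, if_neg (fun h => hE h.2)]
      simp
  have e2 : ∀ ω₂, p ω₂ * sc (Z ω₂) ω₂ / law p Z (Z ω₂) ≤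
      p ω₂ * (s (Z ω₂) / law p Z (Z ω₂)) := by
    intro ω₂
    rcases (hp ω₂).eq_or_lt with h0 | h0
    · rw [← h0]
      simp
    · obtain ⟨ω₀, h1, h2, h3, h4⟩ := hg ω₂ h0
      rw [hs, h1, ← mul_div_assoc]
      refine div_le_div_of_nonneg_right ?_ (law_nonneg hp _ _)
      exact mul_le_mul_of_nonneg_left (h4 ω₂ h0 rfl) h0.le
  rw [e1]
  refine (Finset.sum_le_sum fun ω₂ _ => e2 ω₂).trans (le_of_eq ?_)
  -- regroup
  rw [sum_mul_eq_sum_image p Z (fun z => s z / law p Z z), PrE_split p Z]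
  refine Finset.sum_congr rfl fun z hz => ?_
  have e5 : PrE p (fun ω => Z ω = z ∧ ∃ ω₀, g (Z ω) = some ω₀ ∧ E ω ω₀) = s z := by
    rw [hs]
    rcases hgz : g z with _ | ω₀
    · rw [Option.elim_none, PrE_eq]
      refine Finset.sum_eq_zero fun ω _ => ?_
      rw [if_neg]
      rintro ⟨h5, ω₀, h6, -⟩
      rw [h5, hgz] at h6
      exact absurd h6 (by simp)
    · rw [Option.elim_some, hsc, PrE_eq, PrE_eq]
      refine Finset.sum_congr rfl fun ω _ => ?_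
      by_cases h5 : Z ω = z
      · by_cases h6 : E ω ω₀
        · rw [if_pos ⟨h5, ω₀, by rw [h5, hgz], h6⟩, if_pos ⟨h5, h6⟩]
        · rw [if_neg, if_neg (fun h => h6 h.2)]
          rintro ⟨-, ω₁, h7, h8⟩
          rw [h5, hgz] at h7
          exact h6 (Option.some.inj h7 ▸ h8)
      · rw [if_neg (fun h => h5 h.1), if_neg (fun h => h5 h.1)]
  rw [e5]
  by_cases h0 : law p Z z = 0
  · -- then all the weights vanish
    have h6 : s z = 0 := by
      rw [← e5, PrE_eq]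
      refine Finset.sum_eq_zero fun ω _ => ?_
      split_ifs with h7
      · have := le_law hp Z ω
        rw [h7.1, h0] at this
        exact le_antisymm this (hp ω)
      · rfl
    rw [h6, zero_div, mul_zero]
  · rw [mul_div_cancel₀ _ h0]

end Pool.LF
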