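import Pool.Agent.H36.LF.Cnt
import Pool.Agent.H36.LF.Sh

/-!
# LEMMA F (K_GEN 4.2)

A point `x = (y, n)` of `R ^ (d + 1)`, known to `X` digits, on a leaf `n = P (y)` with `P` a
polynomial of degree at most `K`.  If two conditional copies of the leaf given `x` have gradients
which differ by `2 ^ (-k)` at `x`, then

`2 H(x | leaf, C) - H(x | C) ≤ (d - 1) X log 2 + E k log 2 + log (X + 1) + const`.
-/

set_option autoImplicit false

namespace Pool.LF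

open Finset Real MvPolynomial
open Pool.Agent.H49.Ent Pool.Agent.H32.Dense Pool.GNZ

/-- The constant of LEMMA F. -/
noncomputable def cF (d K R : ℕ) (K₀ : ℝ) : ℝ :=
  (3 * R) ^ d * (2 * K * d * (4 * K₀ + 1) + 1) * (2 * K₀ + 1)

theorem cF_pos {d K R : ℕ} {K₀ : ℝ} (hR : 1 ≤ R) (hK₀ : 0 ≤ K₀) : 0 < cF d K R K₀ := by
  unfold cF
  have : (1 : ℝ) ≤ R := by exact_mod_cast hR
  positivity

/-- The cells over one cell of the base. -/
theorem fib_card {d : ℕ} {K₀ : ℝ} (hK₀ : 0 ≤ K₀) (φ : (Fin d → ℤ) → ℝ)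
    (E : Finset ((Fin d → ℤ) × ℤ)) (hE : ∀ z ∈ E, |φ z.1 - z.2| ≤ K₀) :
    (E.card : ℝ) ≤ (2 * K₀ + 1) * ((E.image Prod.fst).card : ℝ) := by
  classical
  have hfib : ∀ v ∈ E.image Prod.fst, (E.filter (fun z => z.1 = v)).card ≤ ⌊2 * K₀ + 1⌋₊ := by
    intro v _
    refine Nat.le_floor ?_
    have hsub : (E.filter (fun z => z.1 = v)).image Prod.snd ⊆
        Finset.Icc ⌈φ v - K₀⌉ ⌊φ v + K₀⌋ := by
      intro n hn
      rw [Finset.mem_image] at hn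
      obtain ⟨z, hz, rfl⟩ := hn
      rw [Finset.mem_filter] at hz
      have h2 := hE z hz.1
      rw [hz.2, abs_le] at h2
      rw [Finset.mem_Icc]
      exact ⟨Int.ceil_le.2 (by linarith [h2.1, h2.2]), Int.le_floor.2 (by linarith [h2.1, h2.2])⟩
    have hinj : Set.InjOn (Prod.snd : (Fin d → ℤ) × ℤ → ℤ)
        (E.filter (fun z => z.1 = v) : Finset _) := by
      intro z hz z' hz' h
      rw [Finset.mem_coe, Finset.mem_filter] at hz hz'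
      exact Prod.ext (hz.2.trans hz'.2.symm) h
    rw [← Finset.card_image_of_injOn hinj]
    have h3 : (((E.filter (fun z => z.1 = v)).image Prod.snd).card : ℝ) ≤
        ((Finset.Icc ⌈φ v - K₀⌉ ⌊φ v + K₀⌋).card : ℝ) := by
      exact_mod_cast Finset.card_le_card hsub
    refine h3.trans ?_
    rw [Int.card_Icc]
    rcases le_or_gt 0 (⌊φ v + K₀⌋ + 1 - ⌈φ v - K₀⌉) with h5 | h5
    · have h6 : ((⌊φ v + K₀⌋ + 1 - ⌈φ v - K₀⌉).toNat : ℝ) =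
          ((⌊φ v + K₀⌋ + 1 - ⌈φ v - K₀⌉ : ℤ) : ℝ) := by
        have h7 := Int.toNat_of_nonneg h5
        exact_mod_cast h7
      rw [h6]
      push_cast
      have h7 := Int.floor_le (φ v + K₀)
      have h8 := Int.le_ceil (φ v - K₀)
      linarith
    · rw [Int.toNat_of_nonpos h5.le, Nat.cast_zero]
      linarith
  have hc1 := Finset.card_le_mul_card_image E _ hfib
  have h2 : (E.card : ℝ) ≤ ((⌊2 * K₀ + 1⌋₊ * (E.image Prod.fst).card : ℕ) : ℝ) := by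
    exact_mod_cast hc1
  refine h2.trans ?_
  rw [Nat.cast_mul]
  exact mul_le_mul_of_nonneg_right (Nat.floor_le (by linarith)) (Nat.cast_nonneg _)

/-- The number of cells of a class. -/
theorem cls_card {d K R X : ℕ} (hR : 1 ≤ R) {K₀ : ℝ} (hK₀ : 0 ≤ K₀) (D : MvPolynomial (Fin d) ℝ)
    (hD : D.totalDegree ≤ K) (φ : (Fin d → ℤ) → ℝ) (k : ℕ) (E : Finset ((Fin d → ℤ) × ℤ))
    (hE : ∀ z ∈ E, (∀ i, |z.1 i| ≤ R * 2 ^ X) ∧ |φ z.1 - z.2| ≤ K₀ ∧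
        |eval (gp X z.1) D| ≤ 2 * K₀ / 2 ^ X ∧ gk X D z.1 = k) :
    (E.card : ℝ) ≤ cF d K R K₀ * ((2 ^ X) ^ d * 2 ^ k / 2 ^ X) := by
  classical
  have hc2 := cnt_gk (X := X) hR D hD hK₀ k (E.image Prod.fst) (by
    intro v hv
    rw [Finset.mem_image] at hv
    obtain ⟨z, hz, rfl⟩ := hv
    exact ⟨(hE z hz).1, (hE z hz).2.2⟩)
  refine (fib_card hK₀ φ E (fun z hz => (hE z hz).2.1)).trans
    ((mul_le_mul_of_nonneg_left hc2 (by linarith)).trans (le_of_eq ?_))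
  unfold cF
  ring

/-- The weights of the cells add up to at most one. -/
theorem sum_ref {d K R X : ℕ} (hR : 1 ≤ R) {K₀ : ℝ} (hK₀ : 0 ≤ K₀) (D : MvPolynomial (Fin d) ℝ)
    (hD : D.totalDegree ≤ K) (φ : (Fin d → ℤ) → ℝ) (F : Finset ((Fin d → ℤ) × ℤ))
    (hF : ∀ z ∈ F, (∀ i, |z.1 i| ≤ R * 2 ^ X) ∧ |φ z.1 - z.2| ≤ K₀ ∧
        |eval (gp X z.1) D| ≤ 2 * K₀ / 2 ^ X) :
    ∑ z ∈ F, (cF d K R K₀ * (X + 1) * ((2 ^ X) ^ d * 2 ^ (gk X D z.1) / 2 ^ X))⁻¹ ≤ 1 := by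
  classical
  have hA := cF_pos (d := d) (K := K) hR hK₀
  obtain ⟨ρ, hρ⟩ : ∃ ρ : ℕ → ℝ, ∀ k, ρ k =
      cF d K R K₀ * (X + 1) * ((2 ^ X) ^ d * 2 ^ k / 2 ^ X) := ⟨_, fun _ => rfl⟩
  have hρ0 : ∀ k, 0 < ρ k := by
    intro k
    rw [hρ]
    positivity
  have e0 : ∀ z ∈ F, (cF d K R K₀ * (X + 1) * ((2 ^ X) ^ d * 2 ^ (gk X D z.1) / 2 ^ X))⁻¹ =
      (ρ (gk X D z.1))⁻¹ := fun z _ => by rw [hρ]
  rw [Finset.sum_congr rfl e0]
  have hmaps : ∀ z ∈ F, gk X D z.1 ∈ Finset.range (X + 1) := by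
    intro z _
    rw [Finset.mem_range]
    exact Nat.lt_succ_of_le (gk_le _ _ _)
  rw [← Finset.sum_fiberwise_of_maps_to hmaps]
  have hcls : ∀ k ∈ Finset.range (X + 1),
      ∑ z ∈ F.filter (fun z => gk X D z.1 = k), (ρ (gk X D z.1))⁻¹ ≤ (X + 1 : ℝ)⁻¹ := by
    intro k _
    have e1 : ∑ z ∈ F.filter (fun z => gk X D z.1 = k), (ρ (gk X D z.1))⁻¹ =
        ((F.filter (fun z => gk X D z.1 = k)).card : ℝ) * (ρ k)⁻¹ := by
      rw [← nsmul_eq_mul, ← Finset.sum_const]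
      refine Finset.sum_congr rfl fun z hz => ?_
      rw [(Finset.mem_filter.1 hz).2]
    rw [e1, ← div_eq_mul_inv, div_le_iff₀ (hρ0 k), hρ]
    have hc4 := cls_card (X := X) hR hK₀ D hD φ k (F.filter (fun z => gk X D z.1 = k)) (by
      intro z hz
      rw [Finset.mem_filter] at hz
      exact ⟨(hF z hz.1).1, (hF z hz.1).2.1, (hF z hz.1).2.2, hz.2⟩)
    refine hc4.trans (le_of_eq ?_)
    have h9 : (X + 1 : ℝ) ≠ 0 := by positivity
    rw [mul_comm (cF d K R K₀) ((X : ℝ) + 1), mul_assoc, inv_mul_cancel_left₀ h9]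
  refine (Finset.sum_le_sum hcls).trans (le_of_eq ?_)
  rw [Finset.sum_const, Finset.card_range, nsmul_eq_mul]
  push_cast
  exact mul_inv_cancel₀ (by positivity)

/-- The cells which are allowed for a value of the context. -/
def Ok {d : ℕ} (R X : ℕ) (K₀ : ℝ) (D : MvPolynomial (Fin d) ℝ) (φ : (Fin d → ℤ) → ℝ)
    (z : (Fin d → ℤ) × ℤ) : Prop :=
  (∀ i, |z.1 i| ≤ R * 2 ^ X) ∧ |φ z.1 - z.2| ≤ K₀ ∧ |eval (gp X z.1) D| ≤ 2 * K₀ / 2 ^ X

/-- The inverse of the weight of a cell. -/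
noncomputable def rwt {d : ℕ} (K R X : ℕ) (K₀ : ℝ) (D : MvPolynomial (Fin d) ℝ)
    (z : (Fin d → ℤ) × ℤ) : ℝ :=
  cF d K R K₀ * (X + 1) * ((2 ^ X) ^ d * 2 ^ (gk X D z.1) / 2 ^ X)

theorem rwt_pos {d K R X : ℕ} (hR : 1 ≤ R) {K₀ : ℝ} (hK₀ : 0 ≤ K₀) (D : MvPolynomial (Fin d) ℝ)
    (z : (Fin d → ℤ) × ℤ) : 0 < rwt K R X K₀ D z := by
  have hA := cF_pos (d := d) (K := K) hR hK₀
  unfold rwt
  positivity

open Classical in
/-- The weight of a cell. -/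
noncomputable def wt {d : ℕ} (K R X : ℕ) (K₀ : ℝ) (D : MvPolynomial (Fin d) ℝ)
    (φ : (Fin d → ℤ) → ℝ) (z : (Fin d → ℤ) × ℤ) : ℝ :=
  if Ok R X K₀ D φ z then (rwt K R X K₀ D z)⁻¹ else 0

theorem wt_sum {d K R X : ℕ} (hR : 1 ≤ R) {K₀ : ℝ} (hK₀ : 0 ≤ K₀) (D : MvPolynomial (Fin d) ℝ)
    (hD : D.totalDegree ≤ K) (φ : (Fin d → ℤ) → ℝ) (F : Finset ((Fin d → ℤ) × ℤ)) :
    ∑ z ∈ F, wt K R X K₀ D φ z ≤ 1 := by
  classical
  unfold wt
  rw [← Finset.sum_filter]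
  exact sum_ref (X := X) hR hK₀ D hD φ _ fun z hz => (Finset.mem_filter.1 hz).2

theorem wt_nonneg {d K R X : ℕ} (hR : 1 ≤ R) {K₀ : ℝ} (hK₀ : 0 ≤ K₀)
    (D : MvPolynomial (Fin d) ℝ) (φ : (Fin d → ℤ) → ℝ) (z : (Fin d → ℤ) × ℤ) :
    0 ≤ wt K R X K₀ D φ z := by
  unfold wt
  split_ifs
  · exact (inv_pos.2 (rwt_pos hR hK₀ D z)).le
  · exact le_rfl

theorem wt_log {d K R X : ℕ} (hR : 1 ≤ R) {K₀ : ℝ} (hK₀ : 0 ≤ K₀) (D : MvPolynomial (Fin d) ℝ)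
    (φ : (Fin d → ℤ) → ℝ) (z : (Fin d → ℤ) × ℤ) (h : Ok R X K₀ D φ z) :
    0 < wt K R X K₀ D φ z ∧ -Real.log (wt K R X K₀ D φ z) =
      ((d * X - X) * Real.log 2 + Real.log (X + 1) + Real.log (cF d K R K₀)) +
        Real.log 2 * (gk X D z.1 : ℝ) := by
  have hA := cF_pos (d := d) (K := K) hR hK₀
  unfold wt
  rw [if_pos h]
  refine ⟨inv_pos.2 (rwt_pos hR hK₀ D z), ?_⟩
  rw [Real.log_inv, neg_neg]
  unfold rwt
  have h2 : (X + 1 : ℝ) ≠ 0 := by positivity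
  rw [Real.log_mul (by positivity) (by positivity), Real.log_mul hA.ne' h2,
    Real.log_div (by positivity) (by positivity), Real.log_mul (by positivity) (by positivity),
    Real.log_pow, Real.log_pow, Real.log_pow]
  push_cast
  ring

/-- **Counting form.**  The entropy of a cell in terms of the number of digits to which the
gradient of a polynomial vanishes which is small at the cell. -/
theorem ch_gk {Ω 𝒲 : Type} [Fintype Ω] {p : Ω → ℝ} (hp : ∀ ω, 0 ≤ p ω) (h1 : ∑ ω, p ω = 1)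
    {d K R X : ℕ} (hR : 1 ≤ R) {K₀ : ℝ} (hK₀ : 0 ≤ K₀) (W : Ω → 𝒲)
    (D : 𝒲 → MvPolynomial (Fin d) ℝ) (hD : ∀ w, (D w).totalDegree ≤ K)
    (φ : 𝒲 → (Fin d → ℤ) → ℝ) (x : Ω → (Fin d → ℤ) × ℤ)
    (hx : ∀ ω, 0 < p ω → Ok R X K₀ (D (W ω)) (φ (W ω)) (x ω)) :
    CH p x W ≤ (d * X - X) * Real.log 2 +
      Ex p (fun ω => (gk X (D (W ω)) (x ω).1 : ℝ)) * Real.log 2 + Real.log (X + 1) +
        Real.log (cF d K R K₀) := by
  have hcross := CH_le_cross hp h1 x W (fun w z => wt K R X K₀ (D w) (φ w) z)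
    (fun ω hω => (wt_log hR hK₀ (D (W ω)) (φ (W ω)) (x ω) (hx ω hω)).1)
    (fun w z => wt_nonneg hR hK₀ (D w) (φ w) z)
    (fun ω _ F => wt_sum hR hK₀ (D (W ω)) (hD _) (φ (W ω)) F)
  refine hcross.trans ?_
  refine (Ex_mono hp (fun ω hω =>
    (wt_log hR hK₀ (D (W ω)) (φ (W ω)) (x ω) (hx ω hω)).2.le)).trans (le_of_eq ?_)
  rw [Ex_add, Ex_const h1, Ex_smul]
  ring

theorem scale_le {M x c : ℝ} (hM : 0 < M) (h : |x| ≤ c * M⁻¹) : |M * x| ≤ c := by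
  rw [abs_mul, abs_of_pos hM]
  calc M * |x| ≤ M * (c * M⁻¹) := mul_le_mul_of_nonneg_left h hM.le
    _ = c := by field_simp

/-- The point of `R ^ (d + 1)` to `X` digits. -/
noncomputable def pt {Ω : Type} {d : ℕ} (X : ℕ) (y : Ω → Fin d → ℝ) (n : Ω → ℝ) (ω : Ω) :
    (Fin d → ℤ) × ℤ := (dv X (y ω), ⌊(2 : ℝ) ^ X * n ω⌋)

/-- The bound of the distance, in units of `2 ^ (-X)`, between the height of the leaf over the
grid point and the height of the point. -/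
noncomputable def kF (d K R : ℕ) (B e : ℝ) : ℝ :=
  d * ((K + 1) ^ (d + 1) * (B * (R + 1) ^ K)) + e + 1

theorem dv_box {d X R : ℕ} {y : Fin d → ℝ} (h : ∀ i, |y i| ≤ R) (i : Fin d) :
    |dv X y i| ≤ R * 2 ^ X := by
  unfold dv
  have h1 := abs_le.1 (h i)
  have hM : (0 : ℝ) < 2 ^ X := by positivity
  rw [abs_le]
  constructor
  · refine Int.le_floor.2 ?_
    push_cast
    nlinarith [h1.1]
  · have h2 : ⌊(2 : ℝ) ^ X * y i⌋ ≤ ⌊(((R * 2 ^ X : ℤ)) : ℝ)⌋ := by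
      refine Int.floor_le_floor ?_
      push_cast
      nlinarith [h1.2]
    rwa [Int.floor_intCast] at h2

theorem gp_near {d X : ℕ} (y : Fin d → ℝ) (i : Fin d) :
    |gp X (dv X y) i - y i| ≤ ((2 : ℝ) ^ X)⁻¹ := by
  unfold gp dv
  have hM : (0 : ℝ) < 2 ^ X := by positivity
  have h1 := Int.floor_le ((2 : ℝ) ^ X * y i)
  have h2 := Int.lt_floor_add_one ((2 : ℝ) ^ X * y i)
  have h3 : ((⌊(2 : ℝ) ^ X * y i⌋ : ℤ) : ℝ) / 2 ^ X - y i =
      (((⌊(2 : ℝ) ^ X * y i⌋ : ℤ) : ℝ) - 2 ^ X * y i) * ((2 : ℝ) ^ X)⁻¹ := by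
    field_simp
  rw [h3, abs_mul, abs_of_pos (inv_pos.2 hM)]
  refine mul_le_of_le_one_left (inv_pos.2 hM).le ?_
  rw [abs_le]
  constructor <;> linarith

/-- A polynomial with bounded coefficients changes little between a point and its grid point. -/
theorem gp_eval {d K R X : ℕ} {B : ℝ} (P : MvPolynomial (Fin d) ℝ) (hP : P.totalDegree ≤ K)
    (hB : ∀ m, |coeff m P| ≤ B) {y : Fin d → ℝ} (hy : ∀ i, |y i| ≤ R) :
    |eval (gp X (dv X y)) P - eval y P| ≤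
      d * ((K + 1) ^ (d + 1) * (B * (R + 1) ^ K)) * ((2 : ℝ) ^ X)⁻¹ := by
  have h1 : ((2 : ℝ) ^ X)⁻¹ ≤ 1 := inv_le_one_of_one_le₀ (one_le_pow₀ (by norm_num))
  have h2 := Pool.POLY.seg_le P hP hB (a := (R : ℝ) + 1) (V := ((2 : ℝ) ^ X)⁻¹)
    (by linarith [Nat.cast_nonneg (α := ℝ) R]) y (fun i => gp X (dv X y) i - y i)
    (fun i => (hy i).trans (by linarith))
    (fun i => by
      have e : y i + (gp X (dv X y) i - y i) = (gp X (dv X y) i - y i) + y i := by ring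
      rw [e]
      refine (abs_add_le _ _).trans ?_
      have := gp_near (X := X) y i
      linarith [hy i])
    (fun i => gp_near y i) 1 (by simp)
  have e : (fun i => y i + 1 * (gp X (dv X y) i - y i)) = gp X (dv X y) := by
    funext i
    ring
  rwa [e] at h2

/-- **LEMMA F.**  `x = (y, n)` to `X` digits on the leaf `n = P(C, L) (y)`. -/
theorem lemF {Ω 𝒞 Λ : Type} [Fintype Ω] {p : Ω → ℝ} (hp : ∀ ω, 0 ≤ p ω) (h1 : ∑ ω, p ω = 1)
    {d K R X : ℕ} (hR : 1 ≤ R) {B e : ℝ} (C : Ω → 𝒞) (L : Ω → Λ)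
    (P : 𝒞 → Λ → MvPolynomial (Fin d) ℝ) (hdeg : ∀ c l, (P c l).totalDegree ≤ K)
    (hB : ∀ ω, 0 < p ω → ∀ m, |coeff m (P (C ω) (L ω))| ≤ B)
    (y : Ω → Fin d → ℝ) (n : Ω → ℝ) (hy : ∀ ω, 0 < p ω → ∀ i, |y ω i| ≤ R)
    (hn : ∀ ω, 0 < p ω → |n ω - eval (y ω) (P (C ω) (L ω))| ≤ e * ((2 : ℝ) ^ X)⁻¹) :
    2 * CH p (pt X y n) (fun ω => (L ω, C ω)) - CH p (pt X y n) C ≤
      (d * X - X) * Real.log 2 +
        Ex (cp p (fun ω => (pt X y n ω, C ω))) (fun w =>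
          (gk X (P (C w.1) (L w.1) - P (C w.1) (L w.2)) (dv X (y w.1)) : ℝ)) * Real.log 2 +
        Real.log (X + 1) + Real.log (cF d K R (kF d K R B e)) := by
  classical
  -- a sample of positive weight
  obtain ⟨ω₀, hω₀⟩ : ∃ ω, 0 < p ω := by
    by_contra h
    push Not at h
    have : ∑ ω, p ω ≤ 0 := Finset.sum_nonpos fun ω _ => h ω
    linarith
  have hB0 : 0 ≤ B := (abs_nonneg _).trans (hB ω₀ hω₀ 0)
  have hM : (0 : ℝ) < 2 ^ X := by positivity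
  have he0 : 0 ≤ e := by
    have h2 := (abs_nonneg _).trans (hn ω₀ hω₀)
    by_contra h3
    push Not at h3
    have := mul_neg_of_neg_of_pos h3 (inv_pos.2 hM)
    linarith
  have hk0 : 0 ≤ kF d K R B e := by
    unfold kF
    have : (0 : ℝ) ≤ d * ((K + 1) ^ (d + 1) * (B * (R + 1) ^ K)) := by positivity
    linarith
  refine (two_copies hp C L (pt X y n)).trans ?_
  -- the height of the leaf
  have hfit : ∀ ω, 0 < p ω → |2 ^ X * eval (gp X (dv X (y ω))) (P (C ω) (L ω)) -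
      ((⌊(2 : ℝ) ^ X * n ω⌋ : ℤ) : ℝ)| ≤ kF d K R B e := by
    intro ω hω
    have a1 := gp_eval (X := X) (P (C ω) (L ω)) (hdeg _ _) (hB ω hω) (hy ω hω)
    have a2 := hn ω hω
    have a3 := Int.floor_le ((2 : ℝ) ^ X * n ω)
    have a4 := Int.lt_floor_add_one ((2 : ℝ) ^ X * n ω)
    have b1 := scale_le hM a1
    have b2 := scale_le hM a2
    rw [abs_le] at b1 b2
    unfold kF
    rw [abs_le]
    constructor <;> nlinarith [b1.1, b1.2, b2.1, b2.2]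
  have hfit2 : ∀ w, 0 < cp p (fun ω => (pt X y n ω, C ω)) w →
      |2 ^ X * eval (gp X (dv X (y w.1))) (P (C w.1) (L w.2)) -
        ((⌊(2 : ℝ) ^ X * n w.1⌋ : ℤ) : ℝ)| ≤ kF d K R B e := by
    intro w hw
    obtain ⟨h2, h3, h4⟩ := cp_pos hp hw
    simp only [pt, Prod.mk.injEq] at h4
    rw [h4.1.1, h4.1.2, h4.2]
    exact hfit w.2 h3
  refine ch_gk (X := X) (cp_nonneg hp (fun ω => (pt X y n ω, C ω)))
    (cp_sum hp h1 (fun ω => (pt X y n ω, C ω))) hR hk0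
    (fun w : Ω × Ω => ((L w.1, L w.2), C w.1))
    (fun z => P z.2 z.1.1 - P z.2 z.1.2)
    (fun z => (totalDegree_sub _ _).trans (max_le (hdeg _ _) (hdeg _ _)))
    (fun z u => 2 ^ X * eval (gp X u) (P z.2 z.1.1))
    (fun w => pt X y n w.1) ?_
  intro w hw
  refine ⟨dv_box (hy w.1 (cp_pos hp hw).1), hfit w.1 (cp_pos hp hw).1, ?_⟩
  have h2 := hfit w.1 (cp_pos hp hw).1
  have h3 := hfit2 w hw
  show |eval (gp X (dv X (y w.1))) (P (C w.1) (L w.1) - P (C w.1) (L w.2))| ≤ _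
  rw [map_sub, le_div_iff₀ hM]
  rw [abs_le] at h2 h3
  have h4 : |eval (gp X (dv X (y w.1))) (P (C w.1) (L w.1)) -
      eval (gp X (dv X (y w.1))) (P (C w.1) (L w.2))| * 2 ^ X =
      |2 ^ X * eval (gp X (dv X (y w.1))) (P (C w.1) (L w.1)) -
      2 ^ X * eval (gp X (dv X (y w.1))) (P (C w.1) (L w.2))| := by
    rw [← mul_sub, abs_mul, abs_of_pos hM, mul_comm]
  rw [h4, abs_le]
  constructor <;> linarith [h2.1, h2.2, h3.1, h3.2]

end Pool.LF
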